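import Pool.Agent.Lib.MP_091276_al.Ser

/-! The finite matrix and its determinant. -/

namespace Pool.Agent.K12

open Polynomial

/-- The matrix of `(T - a) + β τ` on the span of `T ^ (-1), …, T ^ (-r)`. -/
noncomputable def Mx {A : Type} [CommRing A] (q r : ℕ) (a : A) (β : A[X]) :
    Matrix (Fin r) (Fin r) A :=
  Matrix.of fun i j => cf (X - C a) (j + 1) (i + 1) + cf β (q * (j + 1)) (i + 1)

theorem Mx_map {A B : Type} [CommRing A] [CommRing B] (f : A →+* B) (q r : ℕ) (a : A)
    (β : A[X]) : f.mapMatrix (Mx q r a β) = Mx q r (f a) (β.map f) := by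
  have h : ∀ (p : A[X]) m n, f (cf p m n) = cf (p.map f) m n := fun p m n => by
    unfold cf; split_ifs <;> simp
  ext i j
  simp [Mx, h]

theorem beta_map {A B : Type} [CommRing A] [CommRing B] (f : A →+* B) (q : ℕ) (z : A)
    (c : ℕ → ℕ) (j : ℕ) : (beta q z c j).map f = beta q (f z) c j := by
  simp [beta, Polynomial.map_prod]

theorem beta_deg {A : Type} [CommRing A] (q : ℕ) (z : A) (c : ℕ → ℕ) (j : ℕ) :
    (beta q z c j).natDegree ≤ ∑ i ∈ Finset.range j, c i := by
  refine (natDegree_prod_le _ _).trans (Finset.sum_le_sum fun i _ => natDegree_pow_le.trans ?_)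
  rw [← neg_sub, natDegree_neg]
  exact (Nat.mul_le_mul_left _ (natDegree_X_sub_C_le _)).trans (mul_one _).le

variable {E : Type} [Field E]

theorem evT_cf (p : E[X]) (m n : ℕ) :
    (evT E p * HahnSeries.single (m : ℤ) 1).coeff (n : ℤ) = cf p m n := by
  rw [evT_single, cf]
  simp

theorem surj_base {q r s : ℕ} (hq : q ≠ 0) {z : E} {β : E[X]} (hβ : β.natDegree ≤ s)
    (hr : s + (r + 2) ≤ q * (r + 2)) (hd : (Mx q r z β).det ≠ 0) :
    Surj (evT E) (tauS E hq) z β := by
  intro y
  let Λ : LaurentSeries E →+ LaurentSeries E :=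
    AddMonoidHom.mulLeft (evT E (X - C z)) +
      (AddMonoidHom.mulLeft (evT E β)).comp (tauS E hq).toAddMonoidHom
  have l0 : ∀ u, Λ u = evT E (X - C z) * u + evT E β * tauS E hq u := fun u => rfl
  have l1 : ∀ (a : E) u, Λ (HahnSeries.C a * u) = HahnSeries.C a * Λ u := fun a u => by
    rw [l0, l0, map_mul, tauS_C]; ring
  have l2 : ∀ i j : Fin r, (Λ (HahnSeries.single ((j + 1 : ℕ) : ℤ) 1)).coeff ((i + 1 : ℕ) : ℤ) =
      Mx q r z β i j := fun i j => by
    rw [l0, HahnSeries.coeff_add, tauS_single, ← Nat.cast_mul, evT_cf, evT_cf]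
    rfl
  obtain ⟨v, hv⟩ := Matrix.mulVec_surjective_iff_isUnit.2
    ((Matrix.isUnit_iff_isUnit_det _).2 (IsUnit.mk0 _ hd)) fun i => y.coeff ((i + 1 : ℕ) : ℤ)
  let u : LaurentSeries E := ∑ j : Fin r, HahnSeries.C (v j) * HahnSeries.single ((j + 1 : ℕ) : ℤ) 1
  have l3 : ∀ i : Fin r, (Λ u).coeff ((i + 1 : ℕ) : ℤ) = y.coeff ((i + 1 : ℕ) : ℤ) := fun i => by
    rw [map_sum, HahnSeries.coeff_sum, ← congrFun hv i]
    exact Finset.sum_congr rfl fun j _ => by
      rw [l1, HahnSeries.C_mul_eq_smul, HahnSeries.coeff_smul, l2, smul_eq_mul, mul_comm]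
  obtain ⟨p, hp⟩ := exists_poly (y - Λ u)
  have l4 : Ge (r + 1) (y - Λ u - evT E p) := by
    intro n hn
    rcases lt_or_ge n 1 with h | h
    · exact hp n h
    · have := l3 ⟨(n - 1).toNat, by omega⟩
      rw [show (((n - 1).toNat + 1 : ℕ) : ℤ) = n by omega] at this
      rw [HahnSeries.coeff_sub, HahnSeries.coeff_sub, this, evT_coeff, if_neg (by omega)]
      simp
  let π : LaurentSeries E := HahnSeries.single 1 1
  have p1 : T E * π = 1 := by simp [T, π, HahnSeries.single_mul_single]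
  have p2 : ∀ j w, Ge j w → Ge (j + 1) (π * w) := fun j w h n hn => by
    have := HahnSeries.coeff_single_mul_add (r := (1 : E)) (x := w) (a := n - 1) (b := 1)
    rw [sub_add_cancel, h _ (by omega), mul_zero] at this
    exact this
  let Ψ : LaurentSeries E →+ LaurentSeries E :=
    Λ.comp (AddMonoidHom.mulLeft π) - AddMonoidHom.id _
  have p3 : ∀ w, Ψ w = Λ (π * w) - w := fun w => rfl
  obtain ⟨w, hw⟩ := contract Ψ (r + 1) (fun j hj w h => by
    have e : Ψ w = evT E (C (-z)) * (π * w) + evT E β * tauS E hq (π * w) := by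
      rw [p3, l0, map_sub, evT_X, map_neg, map_neg]
      linear_combination w * p1
    rw [e]
    refine (((p2 j w h).evT_mul (natDegree_C _).le).mono (by simp)).add
      ((((p2 j w h).tauS hq).evT_mul hβ).mono ?_)
    have h1 : (s : ℤ) + (r + 2) ≤ q * (r + 2) := by exact_mod_cast hr
    have h2 : (1 : ℤ) ≤ q := by exact_mod_cast Nat.pos_of_ne_zero hq
    nlinarith) _ l4
  refine ⟨p, u + π * w, ?_⟩
  rw [← l0, map_add]
  rw [p3] at hw
  linear_combination -hw

/-- All coefficients have degree at most `N`. -/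
def Bd (N : ℕ) (p : E[X][X]) : Prop := ∀ j, (p.coeff j).natDegree ≤ N

theorem Bd.mul {a b : ℕ} {p p' : E[X][X]} (h : Bd a p) (h' : Bd b p') : Bd (a + b) (p * p') :=
  fun j => by
    rw [coeff_mul]
    exact natDegree_sum_le_of_forall_le _ _ fun x _ =>
      natDegree_mul_le.trans (add_le_add (h _) (h' _))

theorem bd_one : Bd 0 (1 : E[X][X]) := fun j => by
  rw [coeff_one]; split_ifs <;> simp

theorem bd_beta (q : ℕ) (c : ℕ → ℕ) (j : ℕ) :
    Bd (∑ i ∈ Finset.range j, q ^ i * c i) (beta q (X : E[X]) c j) := by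
  induction j with
  | zero => simpa [beta] using bd_one
  | succ j ih =>
    rw [beta, Finset.prod_range_succ, Finset.sum_range_succ]
    refine ih.mul ?_
    induction c j with
    | zero => simpa using bd_one
    | succ m ih =>
      rw [pow_succ, mul_add, mul_one]
      refine ih.mul fun i => ?_
      rw [coeff_sub, coeff_C, coeff_X]
      refine (natDegree_sub_le _ _).trans (max_le ?_ ?_) <;> split_ifs <;> simp

theorem det_monic {r Q : ℕ} (A : Matrix (Fin r) (Fin r) E[X]) (h : ∀ i j, (A i j).natDegree ≤ Q)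
    (h' : ∀ i j, (A i j).coeff Q = (1 : Matrix (Fin r) (Fin r) E) i j) :
    A.det.Monic ∧ A.det.natDegree = r * Q := by
  have h1 : A.det.natDegree ≤ r * Q := by
    rw [Matrix.det_apply]
    refine natDegree_sum_le_of_forall_le _ _ fun σ _ => (natDegree_smul_le _ _).trans
      ((natDegree_prod_le _ _).trans ((Finset.sum_le_sum fun i _ => h _ i).trans ?_))
    simp
  have h2 : A.det.coeff (r * Q) = 1 := by
    rw [← Matrix.det_one (n := Fin r), Matrix.det_apply, Matrix.det_apply, finsetSum_coeff]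
    refine Finset.sum_congr rfl fun σ _ => ?_
    have := coeff_prod_of_natDegree_le Finset.univ (fun i => A (σ i) i) Q fun i _ => h _ i
    rw [Finset.card_univ, Fintype.card_fin] at this
    rw [coeff_smul, this]
    simp only [h']
  exact ⟨monic_of_natDegree_le_of_coeff_eq_one _ h1 h2,
    natDegree_eq_of_le_of_coeff_ne_zero h1 (h2 ▸ one_ne_zero)⟩

theorem Mx_monic (q r : ℕ) {Q N : ℕ} (hN : N < Q) {β : E[X][X]} (hβ : Bd N β) :
    (-Mx q r (X ^ Q) β).det.Monic ∧ (-Mx q r (X ^ Q) β).det.natDegree = r * Q := by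
  have h1 : ∀ m n, (cf β m n).natDegree ≤ N := fun m n => by
    unfold cf; split_ifs
    · exact hβ _
    · simp
  have h2 : ∀ i j : Fin r, cf (X - C (X ^ Q : E[X])) (j + 1) (i + 1) =
      (if (i : ℕ) + 1 = j then 1 else 0) - if i = j then X ^ Q else 0 := fun i j => by
    rw [cf, coeff_sub, coeff_X, coeff_C]
    simp only [Fin.ext_iff]
    split_ifs <;> first | omega | simp
  refine det_monic _ (fun i j => ?_) fun i j => ?_
  · rw [Matrix.neg_apply, natDegree_neg, Mx, Matrix.of_apply, h2]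
    refine natDegree_add_le_of_degree_le ((natDegree_sub_le _ _).trans (max_le ?_ ?_))
      ((h1 _ _).trans hN.le) <;> split_ifs <;> simp
  · rw [Matrix.neg_apply, Mx, Matrix.of_apply, h2, coeff_neg, coeff_add,
      coeff_eq_zero_of_natDegree_lt ((h1 _ _).trans_lt hN), Matrix.one_apply, coeff_sub]
    have : Q ≠ 0 := by omega
    split_ifs <;> simp [coeff_one, this]

end Pool.Agent.K12
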