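import Pool.Agent.Lib.MP_091276_al.Fin
import Pool.Agent.Lib.MP_091276_al.KU.Mu

/-! The eigenspace has as many elements as the cokernel of the explicit matrix modulo `P`. -/

namespace Pool.Agent.K12

open Polynomial Pool.Agent.Lib

variable {F : Type} [Field F] [Fintype F]

section

variable {K : Type} [Field K] [Algebra F K]

/-- `F[T, λ] + C_P (L ⊗ K)`. -/
noncomputable def WW (t : K) (P : F[X]) : Submodule F (Linf t P) :=
  (Algebra.adjoin F {TL t P, lam t P}).toSubmodule ⊔ LinearMap.range (carl F (TL t P) P)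

/-- The `ω ^ (1 - n)` eigenspace of `(L ⊗ K) / (F[T, λ] + C_P (L ⊗ K))`: the classes of the `x` with
`C_(a ^ (n - 1)) (σ x) ≡ x` whenever `σ λ = C_a λ` with `a` prime to `P`. -/
def Eig (t : K) (P : F[X]) (n : ℕ) : Set (Linf t P ⧸ WW t P) :=
  (WW t P).mkQ '' {x | ∀ (a : F[X]) (σ : Linf t P →ₐ[K] Linf t P), ¬ P ∣ a →
    σ (lam t P) = carl F (TL t P) a (lam t P) → carl F (TL t P) (a ^ (n - 1)) (σ x) - x ∈ WW t P}

theorem eigCard_eq (t : K) (P : F[X]) (n : ℕ) : eigCard t P n = Nat.card (Eig t P n) := rfl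

theorem triv_iff (t : K) (P : F[X]) (x : Linf t P) : Triv t P x ↔ x ∈ WW t P :=
  ⟨fun ⟨o, ho, y, h⟩ => Submodule.mem_sup.2 ⟨o, ho, _, ⟨y, rfl⟩, h.symm⟩, fun h => by
    obtain ⟨o, ho, _, ⟨y, rfl⟩, h⟩ := Submodule.mem_sup.1 h
    exact ⟨o, ho, y, h.symm⟩⟩

theorem eigenZero_iff (t : K) (P : F[X]) (n : ℕ) : EigenZero t P n ↔ Eig t P n = {0} := by
  simp only [EigenZero, triv_iff, Eig]
  constructor
  · intro h
    refine Set.eq_singleton_iff_unique_mem.2 ⟨⟨0, fun a σ _ _ => by simp, map_zero _⟩, ?_⟩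
    rintro _ ⟨x, hx, rfl⟩
    exact (Submodule.Quotient.mk_eq_zero _).2 (h x hx)
  · intro h x hx
    exact (Submodule.Quotient.mk_eq_zero _).1 ((Set.eq_singleton_iff_unique_mem.1 h).2 _ ⟨x, hx, rfl⟩)

theorem eigCard_one {t : K} {P : F[X]} {n : ℕ} (h : EigenZero t P n) : eigCard t P n = 1 := by
  rw [eigCard_eq, (eigenZero_iff t P n).1 h]
  simp

theorem alg_tower (t : K) (P : F[X]) (x : F) :
    algebraMap K (Linf t P) (algebraMap F K x) = algebraMap F (Linf t P) x :=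
  (IsScalarTower.algebraMap_apply F K _ x).symm

theorem carl_unit {t : K} {P : F[X]} (hP : Irreducible P) (ht : aeval t P ≠ 0) {b : F[X]}
    (hb : ¬ P ∣ b) : IsUnit (carl F (TL t P) b (lam t P)) := by
  obtain ⟨u, v, h⟩ := hP.coprime_iff_not_dvd.2 hb
  have h1 := dvd_carl (TL t P) (carl F (TL t P) b (lam t P)) v
  have h2 := carl_one (F := F) (TL t P) (lam t P)
  rw [← h, carl_add, carl_mul, carl_mul, carl_P_lam, map_zero, zero_add] at h2
  exact isUnit_of_dvd_unit (h1.trans h2.dvd) (lam_unit ht)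

theorem exists_sig {t : K} {P : F[X]} (hP : Irreducible P) (ht : aeval t P ≠ 0) {b : F[X]}
    (hb : ¬ P ∣ b) : ∃ σ : Linf t P →ₐ[F] Linf t P,
      (∀ y, σ (algebraMap K _ y) = algebraMap K _ y) ∧
      σ (lam t P) = carl F (TL t P) b (lam t P) := by
  have h : aeval (carl F (TL t P) b (lam t P)) (Phi t P) = 0 := by
    have h1 := ev_carl t P P (carl F (TL t P) b (lam t P))
    rw [← X_mul_Phi, map_mul, aeval_X, ← carl_mul, mul_comm P b, carl_mul, carl_P_lam,
      map_zero] at h1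
    exact (carl_unit hP ht hb).mul_right_eq_zero.1 h1
  let σ := AdjoinRoot.liftAlgHom _ (Algebra.ofId K _) _ h
  exact ⟨σ.restrictScalars F, σ.commutes, AdjoinRoot.liftAlgHom_root _ _ _ h⟩

theorem linf_nontrivial (t : K) {P : F[X]} (hm : P.Monic) (hd : 0 < P.natDegree) :
    Nontrivial (Linf t P) := by
  refine AdjoinRoot.nontrivial _ ?_
  obtain ⟨h1, h2⟩ := KU.divX_cp_monic hm
  have h3 : Phi t P = (KU.cp P).divX.map (aeval t : F[X] →ₐ[F] K).toRingHom := by
    apply mul_left_cancel₀ (X_ne_zero (R := K))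
    have := KU.map_carl (mapRingHom (aeval t : F[X] →ₐ[F] K).toRingHom)
      (fun c => by simp [Polynomial.algebraMap_apply]) (C X) X P
    rw [X_mul_Phi, ← map_X (aeval t : F[X] →ₐ[F] K).toRingHom, ← Polynomial.map_mul,
      KU.X_mul_divX_cp, map_X]
    refine Eq.trans ?_ this.symm
    simp [KU.carl, carl]
  rw [h3, degree_eq_natDegree (h1.map _).ne_zero, h1.natDegree_map, h2]
  have := Nat.one_lt_pow hd.ne' (Fintype.one_lt_card (α := F))
  exact_mod_cast (by omega : Fintype.card F ^ P.natDegree - 1 ≠ 0)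

end

omit [Fintype F] in
theorem aeval_T_ne {P : F[X]} (hP : P ≠ 0) : aeval (T F) P ≠ 0 := by
  rw [aeval_def, RingHom.ext (LaurentSeries.algebraMap_apply F)]
  exact evT_ne hP

/-- The data of the Carlitz cyclotomic algebra. -/
noncomputable def ctx {P : F[X]} (hm : P.Monic) [hi : Fact (Irreducible P)]
    [Fintype (AdjoinRoot P)]
    (hcard : Fintype.card (AdjoinRoot P) = Fintype.card F ^ P.natDegree) :
    KU.Ctx F (AdjoinRoot P) (Linf (T F) P) where
  P := P
  mk' := AdjoinRoot.mkₐ P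
  mk_zero _ := AdjoinRoot.mk_eq_zero
  rep := AdjoinRoot.modByMonicHom hm
  mk_rep := AdjoinRoot.mk_leftInverse hm
  θ := TL (T F) P
  lam := lam (T F) P
  g := algebraMap (LaurentSeries F) _
  g_C a := by rw [← alg_tower, LaurentSeries.algebraMap_apply]
  g_T := rfl
  hP := carl_P_lam _ _
  unit _ hb := carl_unit hi.out (aeval_T_ne hm.ne_zero) hb
  sig _ hb := exists_sig hi.out (aeval_T_ne hm.ne_zero) hb
  gen x := by
    obtain ⟨h, rfl⟩ := AdjoinRoot.mk_surjective x
    exact ⟨h, (AdjoinRoot.aeval_eq h).symm⟩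
  Φ := (KU.cp P).divX
  Φ_monic := (KU.divX_cp_monic hm).1
  Φ_deg := by rw [hcard, (KU.divX_cp_monic hm).2]
  Φ_lam := by
    rw [← (lam_unit (aeval_T_ne hm.ne_zero)).mul_right_eq_zero, KU.mul_phi]
    exact carl_P_lam _ _

theorem card_eq {B V Q : Type} [AddCommGroup B] [AddCommGroup V] [AddCommGroup Q] (Θ : B →+ V)
    (ρ : B →+ Q) (hρ : Function.Surjective ρ) (h : ∀ y, Θ y = 0 ↔ ρ y = 0) :
    Nat.card (Set.range Θ) = Nat.card Q := by
  have h1 : Θ.ker = ρ.ker := AddSubgroup.ext h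
  exact Nat.card_congr (((QuotientAddGroup.quotientKerEquivRange Θ).symm.trans
    ((QuotientAddGroup.quotientAddEquivOfEq h1).trans
      (QuotientAddGroup.quotientKerEquivOfSurjective ρ hρ))).toEquiv)

theorem card_eig {P : F[X]} (hm : P.Monic) (hi : Irreducible P) (c : ℕ → ℕ) {k r n : ℕ}
    (hk : k ≤ P.natDegree) (hc : ∀ i, k ≤ i → c i = Fintype.card F - 1)
    (hc' : ∀ i, c i ≤ Fintype.card F - 1) (hn : 2 ≤ n)
    (hN : ∑ i ∈ Finset.range k, Fintype.card F ^ i * c i + n = Fintype.card F ^ k)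
    (hr : ∑ i ∈ Finset.range k, c i + (r + 2) ≤ Fintype.card F * (r + 2)) :
    Nat.card (Eig (T F) P n) = Nat.card ((Fin r → AdjoinRoot P) ⧸ LinearMap.range
      ((Mw (Fintype.card F) r (X ^ Fintype.card F ^ k) (beta (Fintype.card F) X c k)).map
        (AdjoinRoot.mk P)).mulVecLin) := by
  have := Fact.mk hi
  have := (AdjoinRoot.powerBasis' hm).finite
  have : Finite (AdjoinRoot P) := Module.finite_of_finite F
  have := Fintype.ofFinite (AdjoinRoot P)
  have := linf_nontrivial (T F) hm hi.natDegree_pos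
  have hq1 : 1 ≤ Fintype.card F := Fintype.card_pos
  have hcard : Fintype.card (AdjoinRoot P) = Fintype.card F ^ P.natDegree := by
    rw [Module.card_eq_pow_finrank (K := F), (AdjoinRoot.powerBasis' hm).finrank]
    rfl
  set γ := ctx hm hcard with hγ
  have hz := conj_ne (z := AdjoinRoot.root P) (AdjoinRoot.modByMonicHom hm) (fun b => by
    rw [AdjoinRoot.aeval_eq]; exact AdjoinRoot.mk_leftInverse hm b) hcard
  have hinj : ∀ i < P.natDegree, ∀ j < P.natDegree, γ.z i = γ.z j → i = j := by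
    intro i hi j hj h
    rcases lt_trichotomy i j with h1 | h1 | h1
    · exact absurd h (hz i j h1 hj)
    · exact h1
    · exact absurd h.symm (hz j i h1 hi)
  have hsum : ∀ (c : ℕ → ℕ) k n, (∀ i, k ≤ i → c i = Fintype.card F - 1) →
      ∑ i ∈ Finset.range k, Fintype.card F ^ i * c i + n = Fintype.card F ^ k → ∀ j, k ≤ j →
      ∑ i ∈ Finset.range j, Fintype.card F ^ i * c i + n = Fintype.card F ^ j := by
    intro c k n hc hN j hj
    induction j, hj using Nat.le_induction with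
    | base => exact hN
    | succ j hj ih =>
      rw [Finset.sum_range_succ, add_right_comm, ih, hc j hj, ← mul_one_add, pow_succ]
      congr 1
      omega
  obtain ⟨i0, hi0, hlt⟩ : ∃ i0 < k, c i0 < Fintype.card F - 1 := by
    by_contra h
    push Not at h
    have h1 := hsum (fun _ => Fintype.card F - 1) 0 1 (fun _ _ => rfl) (by simp) k (Nat.zero_le _)
    rw [← Finset.sum_congr rfl fun i hi => congrArg (Fintype.card F ^ i * ·)
      (le_antisymm (hc' i) (h i (Finset.mem_range.1 hi)))] at h1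
    omega
  have hm' : ∀ b : AdjoinRoot P, b ≠ 0 → b ^ (n - 1) *
      b ^ (∑ i ∈ Finset.range P.natDegree, Fintype.card F ^ i * c i) = 1 := fun b hb => by
    rw [← pow_add, ← FiniteField.pow_card_sub_one_eq_one b hb, hcard, ← hsum c k n hc hN _ hk]
    congr 1
    omega
  obtain ⟨m, hm1⟩ := Nat.exists_eq_add_of_le hk
  obtain ⟨w, hw, h⟩ := KU.twist_chain (c := HahnSeries.C) (T := KU.TT (AdjoinRoot P))
    (τ := KU.Ctx.tB F (AdjoinRoot P)) hq1 KU.Ctx.tB_C KU.Ctx.tB_T KU.C_ne_TT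
    (fun x y => map_sub (FiniteField.frobeniusAlgHom F (LaurentSeries (AdjoinRoot P))) x y)
    γ.z_succ hinj c (fun i hi _ => hc i hi) m hm1.ge
  rw [← hm1, γ.z_per hcard, KU.Ctx.z, pow_zero, pow_one] at h
  let Θ : LaurentSeries (AdjoinRoot P) →+ Linf (T F) P ⧸ γ.W :=
    γ.μ.toAddMonoidHom.comp ((AddMonoidHom.mulLeft (γ.gg c P.natDegree)).comp γ.jB.toAddMonoidHom)
  have hΘ : ∀ y, Θ y = γ.μ (γ.gg c P.natDegree * γ.jB y) := fun _ => rfl
  have hE : Eig (T F) P n = Set.range Θ := by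
    ext v
    obtain ⟨x, rfl⟩ := γ.W.mkQ_surjective v
    refine Iff.trans ?_ (γ.range_iff hcard hm' x).symm
    constructor
    · rintro ⟨x', hx', he⟩
      refine (γ.range_iff hcard hm' x).1 (he ▸ (γ.range_iff hcard hm' x').2 fun b => ?_)
      exact hx' _ { (γ.S b).toRingHom with commutes' := γ.S_g b } (γ.not_dvd b.ne_zero)
        (γ.S_lam b)
    · refine fun hx => ⟨x, fun a σ ha hσ => ?_, rfl⟩
      let b := Units.mk0 (γ.mk' a) fun h0 => ha ((γ.mk_zero a).1 h0)
      have h1 : σ x = γ.S b x := γ.hom_ext (σ := σ.toRingHom) (σ' := (γ.S b).toRingHom)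
        (fun y => (σ.commutes y).trans (γ.S_g b y).symm)
        (hσ.trans ((γ.ell_mk a).symm.trans (γ.S_lam b).symm)) x
      have h2 := (γ.μ_mk (a ^ (n - 1)) (γ.S b x)).symm.trans
        ((congrArg (fun e => γ.μ (e ⊗ₜ γ.S b x))
          (show γ.mk' (a ^ (n - 1)) = γ.mk' (γ.rep b ^ (n - 1)) by
            rw [map_pow, map_pow, γ.mk_rep]; rfl)).trans (γ.μ_mk _ _))
      rw [h1]
      exact (Submodule.Quotient.eq _).1 (h2.trans ((Submodule.Quotient.eq _).2 (hx b)))
  rw [hE, Mw_map, beta_map, map_pow, AdjoinRoot.mk_X]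
  let π : LaurentSeries (AdjoinRoot P) →+ (Fin r → AdjoinRoot P) :=
    ⟨⟨fun y i => (w * y).coeff ((i + 1 : ℕ) : ℤ), by ext i; simp⟩,
      fun x y => by ext i; simp [mul_add]⟩
  refine card_eq Θ ((Submodule.mkQ _).toAddMonoidHom.comp π) (fun v => ?_) fun y => ?_
  · obtain ⟨v, rfl⟩ := Submodule.mkQ_surjective _ v
    obtain ⟨y, rfl⟩ := trunc_surj hw v
    exact ⟨y, rfl⟩
  · rw [hΘ, γ.ker_iff hcard hm' hinj (fun i _ => hc' i) (hi0.trans_le hk) hlt, h]
    refine (KU.inS_iff (τ := KU.Ctx.tB F (AdjoinRoot P)) (r := r)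
      (β := beta (Fintype.card F) (AdjoinRoot.root P) c k) hq1
      (KU.Ctx.exists_tB F _).choose_spec.2.1 (KU.Ctx.exists_tB F _).choose_spec.2.2
      ((beta_deg (Fintype.card F) (AdjoinRoot.root P) c k).trans (by
        obtain ⟨q, hq'⟩ : ∃ q, Fintype.card F = q + 1 := ⟨Fintype.card F - 1, by omega⟩
        rw [hq'] at hr ⊢
        rw [Nat.add_sub_cancel]
        nlinarith)) (w * y)).trans ?_
    refine Iff.trans ?_ (Submodule.Quotient.mk_eq_zero _).symm
    refine exists_congr fun v => ?_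
    rw [eq_comm, funext_iff]
    simp only [Matrix.mulVecLin_apply, Matrix.mulVec, dotProduct, Mw_eq_mat]
    rfl

omit [Fintype F] in
/-- The cokernel of `Mw` over `F[T]` is killed by a monic polynomial of degree `r Q`. -/
theorem exists_killer (q r : ℕ) {Q N : ℕ} (hN : N < Q) {β : F[X][X]} (hβ : Bd N β) :
    ∃ D : F[X], D.Monic ∧ D.natDegree = r * Q ∧
      ∀ v : Fin r → F[X], D • v ∈ LinearMap.range (Mw q r (X ^ Q) β).mulVecLin := by
  obtain ⟨h1, h2⟩ := Mx_monic q r hN hβ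
  refine ⟨_, h1, h2, fun v => ⟨Fin.snoc (-(-Mx q r (X ^ Q) β).adjugate.mulVec v) 0, ?_⟩⟩
  have h3 : (Mx q r (X ^ Q) β).mulVec (-(-Mx q r (X ^ Q) β).adjugate.mulVec v)
      = (-Mx q r (X ^ Q) β).det • v := by
    rw [Matrix.mulVec_neg, ← Matrix.neg_mulVec, Matrix.mulVec_mulVec, Matrix.mul_adjugate,
      Matrix.smul_mulVec, Matrix.one_mulVec]
  rw [← h3]
  ext1 i
  simp only [Matrix.mulVecLin_apply, Matrix.mulVec, dotProduct, Fin.sum_univ_castSucc,
    Fin.snoc_castSucc, Fin.snoc_last, mul_zero, add_zero, Mw_castSucc]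

end Pool.Agent.K12
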