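import Pool.Agent.Lib.MP_091276_al.Defs

/-! Laws of the Carlitz action. -/

namespace Pool.Agent.K12

open Polynomial

set_option linter.unusedSectionVars false

variable {F : Type} [Field F] [Fintype F] {R : Type} [CommRing R] [Algebra F R]

theorem carl_X (t y : R) : carl F t X y = t * y + y ^ Fintype.card F := by
  simp [carl]

theorem carl_C (t y : R) (c : F) : carl F t (C c) y = c • y := by
  simp [carl]

theorem carl_mul (t y : R) (a b : F[X]) : carl F t (a * b) y = carl F t a (carl F t b y) := by
  rw [map_mul]; rfl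

theorem carl_add (t y : R) (a b : F[X]) : carl F t (a + b) y = carl F t a y + carl F t b y := by
  rw [map_add]; rfl

theorem carl_sub (t y : R) (a b : F[X]) : carl F t (a - b) y = carl F t a y - carl F t b y := by
  rw [map_sub]; rfl

theorem carl_one (t y : R) : carl F t 1 y = y := by
  rw [map_one]; rfl

theorem poly_ind {M : F[X] → Prop} (h0 : ∀ c, M (C c)) (ha : ∀ a b, M a → M b → M (a + b))
    (hx : ∀ a, M a → M (X * a)) (a : F[X]) : M a := by
  refine Polynomial.induction_on a h0 ha fun n c h => ?_
  have := hx _ h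
  rwa [mul_left_comm, ← pow_succ'] at this

theorem map_carl {S : Type} [CommRing S] [Algebra F S] (f : R →ₐ[F] S) (t y : R) (a : F[X]) :
    f (carl F t a y) = carl F (f t) a (f y) := by
  induction a using poly_ind with
  | h0 c => rw [carl_C, carl_C, map_smul]
  | ha a b h1 h2 => rw [carl_add, carl_add, map_add, h1, h2]
  | hx a h => rw [carl_mul, carl_mul, carl_X, carl_X, map_add, map_mul, map_pow, h]

theorem dvd_carl (t y : R) (a : F[X]) : y ∣ carl F t a y := by
  induction a using poly_ind with
  | h0 c => rw [carl_C, Algebra.smul_def]; exact dvd_mul_left _ _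
  | ha a b h1 h2 => rw [carl_add]; exact dvd_add h1 h2
  | hx a h =>
    rw [carl_mul, carl_X]
    exact dvd_add (h.mul_left _) (h.trans (dvd_pow_self _ Fintype.card_ne_zero))

theorem carl_mem (S : Subalgebra F R) {t y : R} (ht : t ∈ S) (hy : y ∈ S) (a : F[X]) :
    carl F t a y ∈ S := by
  induction a using poly_ind with
  | h0 c => rw [carl_C]; exact S.smul_mem hy c
  | ha a b h1 h2 => rw [carl_add]; exact S.add_mem h1 h2
  | hx a h => rw [carl_mul, carl_X]; exact S.add_mem (S.mul_mem ht h) (S.pow_mem h _)

variable {K : Type} [Field K] [Algebra F K]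

/-- `x` lies in `F[T, λ] + C_P (L ⊗ K)`. -/
def Triv (t : K) (P : F[X]) (x : Linf t P) : Prop :=
  ∃ o ∈ Algebra.adjoin F {TL t P, lam t P}, ∃ y, x = o + carl F (TL t P) P y

/-- The `ω ^ (1 - n)` eigenspace of `(L ⊗ K) / (F[T, λ] + C_P (L ⊗ K))` is zero: if
`C_(a ^ (n - 1)) (σ x) ≡ x` whenever `σ λ = C_a λ` with `a` prime to `P`, then `x ≡ 0`. -/
def EigenZero (t : K) (P : F[X]) (n : ℕ) : Prop :=
  ∀ x : Linf t P, (∀ (a : F[X]) (σ : Linf t P →ₐ[K] Linf t P), ¬ P ∣ a →
    σ (lam t P) = carl F (TL t P) a (lam t P) →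
    Triv t P (carl F (TL t P) (a ^ (n - 1)) (σ x) - x)) → Triv t P x

theorem Phi_def (t : K) (P : F[X]) : Phi t P = divX (carl F (C t) P X) := rfl

theorem deriv_carl (t : K) (a : F[X]) :
    derivative (carl F (C t) a (X : K[X])) = C (aeval t a) := by
  induction a using poly_ind with
  | h0 c => rw [carl_C, aeval_C, Algebra.smul_def, Polynomial.algebraMap_apply]; simp
  | ha a b h1 h2 => rw [carl_add, map_add, h1, h2, map_add, map_add]
  | hx a h =>
    have h0 : ((Fintype.card F : ℕ) : K) = 0 := by
      rw [← map_natCast (algebraMap F K), FiniteField.cast_card_eq_zero, map_zero]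
    rw [carl_mul, carl_X, map_add, derivative_C_mul, h, derivative_pow, h0]
    simp

theorem X_mul_Phi (t : K) (P : F[X]) : X * Phi t P = carl F (C t) P X := by
  have h := X_mul_divX_add (carl F (C t) P (X : K[X]))
  rwa [X_dvd_iff.1 (dvd_carl (C t) X P), map_zero, add_zero] at h

theorem Phi_zero (t : K) (P : F[X]) : (Phi t P).coeff 0 = aeval t P := by
  have h := congrArg (fun p => p.coeff 0) (deriv_carl t P)
  simpa [coeff_derivative, Phi_def, coeff_divX] using h

theorem deg_carl_pow (t : K) (i : ℕ) :
    (carl F (C t) (X ^ i) (X : K[X])).natDegree ≤ Fintype.card F ^ i := by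
  induction i with
  | zero => rw [pow_zero, carl_one]; simp
  | succ i h =>
    rw [pow_succ', carl_mul, carl_X]
    refine natDegree_add_le_of_degree_le ((natDegree_C_mul_le _ _).trans (h.trans ?_))
      (natDegree_pow_le.trans ?_)
    · exact Nat.pow_le_pow_right Fintype.card_pos i.le_succ
    · rw [pow_succ']; exact Nat.mul_le_mul_left _ h

theorem deg_Phi (t : K) (P : F[X]) :
    (Phi t P).natDegree ≤ Fintype.card F ^ P.natDegree - 1 := by
  rw [Phi_def, natDegree_divX_eq_natDegree_tsub_one]
  refine Nat.sub_le_sub_right ?_ 1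
  conv_lhs => rw [P.as_sum_range_C_mul_X_pow, map_sum, LinearMap.sum_apply]
  refine natDegree_sum_le_of_forall_le _ _ fun i hi => ?_
  rw [carl_mul, carl_C]
  exact (natDegree_smul_le _ _).trans ((deg_carl_pow t i).trans
    (Nat.pow_le_pow_right Fintype.card_pos (Nat.lt_succ_iff.1 (Finset.mem_range.1 hi))))

/-- A polynomial vanishing at more points than its degree, with unit differences, is zero. -/
theorem zero_of_roots {S ι : Type} [CommRing S] [Nontrivial S] (s : Finset ι) (f : ι → S)
    (hf : ∀ i ∈ s, ∀ j ∈ s, i ≠ j → IsUnit (f i - f j)) (p : S[X]) (hd : p.natDegree < s.card)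
    (h : ∀ i ∈ s, p.eval (f i) = 0) : p = 0 := by
  classical
  induction s using Finset.induction_on generalizing p with
  | empty => simp at hd
  | insert i s hi ih =>
    have h1 : (X - C (f i)) * (p /ₘ (X - C (f i))) = p :=
      mul_divByMonic_eq_iff_isRoot.2 (h i (Finset.mem_insert_self _ _))
    by_cases h0 : p.natDegree = 0
    · have h2 := h i (Finset.mem_insert_self _ _)
      rw [eq_C_of_natDegree_eq_zero h0] at h2 ⊢
      rw [eval_C] at h2
      rw [h2, map_zero]
    rw [← h1, ih (fun a ha b hb => hf a (Finset.mem_insert_of_mem ha) b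
      (Finset.mem_insert_of_mem hb)) (p /ₘ (X - C (f i))) ?_ fun j hj => ?_, mul_zero]
    · rw [natDegree_divByMonic _ (monic_X_sub_C _), natDegree_X_sub_C]
      rw [Finset.card_insert_of_notMem hi] at hd
      omega
    · have h2 := h j (Finset.mem_insert_of_mem hj)
      rw [← h1, eval_mul, eval_sub, eval_X, eval_C] at h2
      exact (hf j (Finset.mem_insert_of_mem hj) i (Finset.mem_insert_self _ _)
        fun e => hi (e ▸ hj)).mul_right_eq_zero.1 h2

end Pool.Agent.K12
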