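import Pool.Agent.Lib.MP_091276_al.Red
import Pool.Agent.Lib.MP_091276_al.KU.Gen

/-! The converse: a zero eigenspace makes the twisted operator onto. -/

namespace Pool.Agent.K12

open Polynomial TensorProduct

set_option linter.unusedSectionVars false

variable {F : Type} [Field F] [Fintype F] {L : Type} [CommRing L] [Algebra F L]
  {E : Type} [Field E] [Fintype E] [Algebra F E]

theorem expand_norm (z : E) {d : ℕ} (hc : Fintype.card E = Fintype.card F ^ d) :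
    expand E (Fintype.card F) (beta (Fintype.card F) z (fun _ => 1) d) =
      beta (Fintype.card F) z (fun _ => 1) d ^ Fintype.card F := by
  have h := (Finset.prod_range_succ (fun i => (C (z ^ Fintype.card F ^ i) -
    X ^ Fintype.card F : E[X])) d).symm.trans (Finset.prod_range_succ' _ d)
  rw [← hc, FiniteField.pow_card, pow_zero, pow_one] at h
  have h1 := mul_right_cancel₀ (fun e => X_pow_sub_C_ne_zero Fintype.card_pos z
    (by rw [← neg_sub, e, neg_zero])) h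
  simp only [beta, pow_one, map_prod, map_sub, expand_C, expand_X]
  rw [h1, ← Finset.prod_pow]
  refine Finset.prod_congr rfl fun i _ => ?_
  have h2 := map_sub (FiniteField.frobeniusAlgHom F E[X]) (C (z ^ Fintype.card F ^ i)) X
  simp only [FiniteField.coe_frobeniusAlgHom] at h2
  rw [h2, ← map_pow C, ← pow_mul, ← pow_succ]

theorem up_mem (O : Subalgebra F L) (f : L →ₐ[F] L) (hf : ∀ o ∈ O, f o ∈ O) :
    ∀ r ∈ (Algebra.TensorProduct.map (AlgHom.id E E) O.val).range,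
      up E f r ∈ (Algebra.TensorProduct.map (AlgHom.id E E) O.val).range := by
  rintro _ ⟨r, rfl⟩
  induction r with
  | zero => simp
  | add a b ha hb =>
    simp only [AlgHom.toRingHom_eq_coe, RingHom.coe_coe] at ha hb ⊢
    rw [map_add, map_add]
    exact add_mem ha hb
  | tmul a o => exact ⟨a ⊗ₜ (⟨_, hf o o.2⟩ : O), rfl⟩

theorem up_tau (f : L →ₐ[F] L) (r : E ⊗[F] L) : up E f (tauR E r) = tauR E (up E f r) := by
  induction r with
  | zero => simp
  | add a b ha hb => simp only [map_add, ha, hb]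
  | tmul a y => rw [tauR_tmul, up_tmul, up_tmul, tauR_tmul, map_pow]

theorem conv [Nontrivial L] {t : L} {P : F[X]} {z : E}
    (hk : ∀ a : F[X], aeval z a = 0 ↔ P ∣ a)
    (s : E →ₗ[F] F[X]) (hs : ∀ b, aeval z (s b) = b) {d : ℕ}
    (hc : Fintype.card E = Fintype.card F ^ d) (χ : E →ₗ[F] L) (σ : Eˣ → L →ₐ[F] L)
    (h1 : ∀ a b, carl F t a (χ b) = χ (aeval z a * b)) (h2 : ∀ b, b ≠ 0 → IsUnit (χ b))
    (h3 : ∀ c b, σ c (χ b) = χ (c * b)) (h4 : ∀ c b x, σ c (σ b x) = σ (c * b) x)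
    {B : Type} [Field B] (ev : E[X] →+* B) (τ : B →+* B) (ι : B →+* E ⊗[F] L)
    (i1 : ∀ a, ι (ev (C a)) = algebraMap E _ a) (i2 : ι (ev X) = 1 ⊗ₜ t)
    (i3 : ∀ u, ι (τ u) = tauR E (ι u)) (i4 : ∀ p, p ≠ 0 → ev p ≠ 0)
    (i5 : ∀ a x, (∀ c, σ c x = x) → a ⊗ₜ x ∈ ι.range)
    (O : Subalgebra F L) (ht : t ∈ O) (hO : ∀ b, χ b ∈ O)
    (i6 : ∀ v, ι v ∈ (Algebra.TensorProduct.map (AlgHom.id E E) O.val).range → ∃ p, v = ev p)
    (i7 : ∀ b y, up E (σ b) (ι y) = ι y) (i8 : ∀ p, τ (ev p) = ev (expand E (Fintype.card F) p))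
    (s1 : ∀ b, ∀ o ∈ O, σ b o ∈ O) (c : ℕ → ℕ) (m : ℕ)
    (hm : ∀ b : E, b ≠ 0 → b ^ (∑ i ∈ Finset.range d, Fintype.card F ^ i * c i) * b ^ m = 1)
    (hz : ∀ i j, i < j → j < d → z ^ Fintype.card F ^ i ≠ z ^ Fintype.card F ^ j)
    (hle : ∀ i < d, c i ≤ Fintype.card F - 1) {i0 : ℕ} (hi0 : i0 < d)
    (hlt : c i0 < Fintype.card F - 1)
    (hE : ∀ x, (∀ (a : F[X]) (b : Eˣ), aeval z a = b →
      ∃ o ∈ O, ∃ y, carl F t (a ^ m) (σ b x) - x = o + carl F t P y) →
      ∃ o ∈ O, ∃ y, x = o + carl F t P y) :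
    Surj ev τ z (beta (Fintype.card F) z c d) := by
  classical
  let M : Submodule F L := O.toSubmodule ⊔ LinearMap.range (carl F t P)
  have hM : ∀ v, v ∈ M → ∃ o ∈ O, ∃ y, v = o + carl F t P y := fun v h => by
    obtain ⟨o, ho, _, ⟨y, rfl⟩, h⟩ := Submodule.mem_sup.1 h
    exact ⟨o, ho, y, h.symm⟩
  obtain ⟨μ, m1, m2, m3⟩ := exists_mu (fun a => (hk a).1) s hs O ht M
    (fun o ho => Submodule.mem_sup_left ho) fun y => Submodule.mem_sup_right ⟨y, rfl⟩
  have hne : ∀ a : E, (C a - X : E[X]) ≠ 0 := fun a h =>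
    X_sub_C_ne_zero a (by rw [← neg_sub, h, neg_zero])
  obtain ⟨g, g1, g2, g3, g4, g5, g6⟩ := exists_g hc χ σ h1 h2 h3 h4 ev ι i1 i2
    (fun a => i4 _ (hne a)) i5 O hO c
  obtain ⟨g', g7, g8⟩ := g6 hle
  have u1 := fun b => up_mem (E := E) O (σ b) (s1 b)
  have u2 := up_mem (E := E) O (FiniteField.frobeniusAlgHom F L) fun o ho => O.pow_mem ho _
  set RO := (Algebra.TensorProduct.map (AlgHom.id E E) O.val).range
  set q := Fintype.card F
  have gen : ∀ v, g * ι v ∈ RO → ∃ p, v = ev p := by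
    have hN : beta q z (fun _ => 1) d ≠ 0 :=
      Finset.prod_ne_zero_iff.2 fun i _ => pow_ne_zero _ (hne _)
    have h5 : ∀ v, g * ι v ∈ RO → ∃ f, ev (beta q z (fun _ => 1) d) * v = ev f := fun v hv =>
      i6 _ (by rw [map_mul, ← g8, mul_right_comm]; exact mul_mem hv g7)
    intro v hv
    obtain ⟨f, hf⟩ := h5 v hv
    obtain ⟨p, rfl⟩ := Lib.KU.gen_poly (q := q) (d := d) (z := fun i => z ^ q ^ i)
      (fun i => by rw [pow_succ, pow_mul]) (by rw [← hc, FiniteField.pow_card, pow_zero, pow_one])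
      (fun i hi j hj h => by
        rcases lt_trichotomy i j with h' | h' | h'
        · exact absurd h (hz i j h' hj)
        · exact h'
        · exact absurd h.symm (hz j i h' hi)) c hle hi0 hlt
      {f | ∃ v, g * ι v ∈ RO ∧ ev (beta q z (fun _ => 1) d) * v = ev f} (by
        rintro f ⟨v, hv, hf⟩
        have h6 : g * ι (ev (beta q z c d) * τ v) ∈ RO := by
          have := u2 _ hv
          rwa [← tauR, map_mul, g4, ← i3, mul_comm (ι _), mul_assoc, ← map_mul] at this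
        obtain ⟨f1, h7⟩ := h5 _ h6
        refine ⟨f1, ⟨_, h6, h7⟩, sub_eq_zero.1 (not_not.1 fun h => i4 _ h ?_)⟩
        have h8 := congrArg τ hf
        rw [map_mul, i8, i8, expand_norm z hc, ← pow_sub_one_mul Fintype.card_ne_zero,
          map_mul] at h8
        change ev (beta q z (fun _ => 1) d ^ (q - 1) * f1 - beta q z c d * _) = 0
        rw [map_sub, map_mul, map_mul, ← h7, ← h8]
        ring) f ⟨v, hv, hf⟩
    exact ⟨p, mul_left_cancel₀ (i4 _ hN) (hf.trans (map_mul _ _ _))⟩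
  let Λ : E ⊗[F] L →ₗ[E] E ⊗[F] L := LinearMap.mulLeft E (1 ⊗ₜ t) + (tauR E).toLinearMap -
    LinearMap.mulLeft E (algebraMap E _ z)
  have l0 : ∀ r, Λ r = 1 ⊗ₜ t * r + tauR E r - algebraMap E _ z * r := fun r => rfl
  have l1 : ∀ b r, up E (σ b) (Λ r) = Λ (up E (σ b) r) := fun b r => by
    rw [l0, l0, map_sub, map_add, map_mul, map_mul, up_tau, AlgHom.commutes, ← i2, i7]
  let W : Submodule E (E ⊗[F] L) := RO.toSubmodule ⊔ LinearMap.range Λ
  have w0 : ∀ (a : E) r, r ∈ W → algebraMap E _ a * r ∈ W := fun a r h =>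
    Algebra.smul_def a r ▸ W.smul_mem a h
  have w1 : ∀ a y, aeval z a ⊗ₜ y - 1 ⊗ₜ carl F t a y ∈ W := by
    intro a y
    induction a using poly_ind with
    | h0 c => rw [carl_C, aeval_C, Algebra.algebraMap_eq_smul_one, smul_tmul, sub_self]; simp
    | ha a b h1 h2 =>
      rw [map_add, carl_add, add_tmul, tmul_add, add_sub_add_comm]
      exact add_mem h1 h2
    | hx a h =>
      have := sub_mem (w0 z _ h) (Submodule.mem_sup_right ⟨1 ⊗ₜ carl F t a y, rfl⟩)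
      rw [l0, tauR_tmul, Algebra.TensorProduct.tmul_mul_tmul, mul_sub, alg_mul, one_mul,
        ← tmul_add, sub_sub, add_sub_cancel] at this
      rwa [map_mul, aeval_X, carl_mul, carl_X]
  have w2 : ∀ r, ∃ x, r - 1 ⊗ₜ x ∈ W := by
    intro r
    induction r with
    | zero => exact ⟨0, by simp⟩
    | add a b ha hb =>
      obtain ⟨x, hx⟩ := ha
      obtain ⟨y, hy⟩ := hb
      exact ⟨x + y, by rw [tmul_add, add_sub_add_comm]; exact add_mem hx hy⟩
    | tmul a y => exact ⟨_, hs a ▸ w1 (s a) y⟩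
  have w3 : ∀ r ∈ W, μ r = 0 ∧ ∀ b, up E (σ b) r ∈ W := by
    intro r hr
    obtain ⟨o, ho, _, ⟨y, rfl⟩, rfl⟩ := Submodule.mem_sup.1 hr
    refine ⟨by rw [map_add, m2 o ho, l0, m3, add_zero], fun b => ?_⟩
    rw [map_add, l1]
    exact Submodule.add_mem_sup (u1 b o ho) ⟨_, rfl⟩
  intro y
  have r1 : ∀ b : Eˣ, algebraMap E _ (b ^ m) * up E (σ b) (g * ι y) = g * ι y := fun b => by
    rw [map_mul, g3, i7, mul_assoc, ← mul_assoc, ← map_mul, mul_comm (b ^ m : E), hm _ b.ne_zero,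
      map_one, one_mul]
  obtain ⟨x, hx⟩ := w2 (g * ι y)
  obtain ⟨o, ho, y', rfl⟩ := hE x fun a b hab => hM _ (by
    have h5 := (w3 _ (sub_mem hx (w0 (b ^ m) _ ((w3 _ hx).2 b)))).1
    have h6 := m1 1 x
    rw [map_one (aeval z), carl_one] at h6
    rw [map_sub (up E _), mul_sub, r1, sub_sub_sub_cancel_left, up_tmul, alg_mul, mul_one, ← hab,
      ← map_pow, map_sub, m1, h6, ← map_sub] at h5
    exact (Submodule.Quotient.mk_eq_zero M).1 h5)
  have h5 := sub_mem (add_mem hx (Submodule.mem_sup_left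
    (show (1 : E) ⊗ₜ[F] o ∈ RO from ⟨1 ⊗ₜ (⟨o, ho⟩ : O), rfl⟩))) (w1 P y')
  rw [(hk P).2 dvd_rfl, zero_tmul, tmul_add, show ∀ a b c : E ⊗[F] L,
    a - (b + c) + b - (0 - c) = a from fun a b c => by ring] at h5
  obtain ⟨o', ho', _, ⟨r, rfl⟩, h6⟩ := Submodule.mem_sup.1 h5
  obtain ⟨v, hv⟩ := g5 _ (up_proj σ h4 hm o')
  obtain ⟨u, hu⟩ := g5 _ (up_proj σ h4 hm r)
  obtain ⟨p, rfl⟩ := gen v (hv ▸ sum_mem fun b _ => mul_mem (RO.algebraMap_mem _) (u1 b _ ho'))
  have h7 : -(g * ι y) = g * ι (ev p) + Λ (g * ι u) := by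
    rw [← hv, ← hu, map_sum, ← Finset.sum_add_distrib, ← sum_units_const (F := F) (E := E)]
    refine Finset.sum_congr rfl fun b _ => ?_
    rw [← r1 b, ← h6, map_add, mul_add, l1, ← Algebra.smul_def _ (up E _ r), map_smul,
      Algebra.smul_def]
  have : Nontrivial (E ⊗[F] L) := nontrivial_of_ne _ _ (G_ne χ h2)
  refine ⟨-p, -u, ι.injective (g1.mul_left_cancel ?_)⟩
  rw [l0, map_mul (tauR E), g4, ← i3, ← i1, ← i2] at h7
  simp only [map_add, map_mul, map_neg, map_sub]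
  linear_combination -h7

end Pool.Agent.K12
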