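import Mathlib

/-! The class module of the Carlitz module over the `P`-th cyclotomic function field, modulo `P`,
and its eigenspaces. -/

namespace Pool.Agent.K12

open Polynomial

variable (F : Type) [Field F] [Fintype F]

/-- The Carlitz action of `A = F[X]` on a commutative `F`-algebra `R` in which the variable has the
value `t`: the variable acts by `y ↦ t y + y ^ q`, `q = card F`. -/
noncomputable def carl {R : Type} [CommRing R] [Algebra F R] (t : R) :
    F[X] →ₐ[F] Module.End F R :=
  aeval (LinearMap.mulLeft F t + (FiniteField.frobeniusAlgHom F R).toLinearMap)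

/-- `T = 1 / X` in `F((X)) = F((1 / T)) = K_∞`. -/
noncomputable def T (E : Type) [Field E] : LaurentSeries E := HahnSeries.single (-1) 1

variable {F} {K : Type} [Field K] [Algebra F K]

/-- `C_a (y)`. -/
noncomputable def act {R : Type} [CommRing R] [Algebra F R] (t : R) (a : F[X]) (y : R) : R :=
  carl F t a y

/-- The subspace `F[t, l] + C_P R` of `R`. -/
noncomputable def WR {R : Type} [CommRing R] [Algebra F R] (t l : R) (P : F[X]) : Submodule F R :=
  (Algebra.adjoin F {t, l}).toSubmodule ⊔ LinearMap.range (carl F t P)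

/-- `C_(a ^ (n - 1)) (σ x) ≡ x` modulo `F[t, l] + C_P R` whenever `σ` is a `K`-endomorphism of `R`
with `σ l = C_a l` and `a` is prime to `P`. -/
def IsEig (K : Type) [Field K] {R : Type} [CommRing R] [Algebra F R] [Algebra K R] (t l : R)
    (P : F[X]) (n : ℕ) (x : R) : Prop :=
  ∀ (a : F[X]) (σ : R →ₐ[K] R), ¬ P ∣ a → σ l = act t a l → act t (a ^ (n - 1)) (σ x) - x ∈ WR t l P

/-- The `ω ^ (1 - n)` eigenspace of `R / (F[t, l] + C_P R)`. -/
def EigR (K : Type) [Field K] {R : Type} [CommRing R] [Algebra F R] [Algebra K R] (t l : R)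
    (P : F[X]) (n : ℕ) : Set (R ⧸ WR t l P) :=
  Submodule.Quotient.mk '' {x | IsEig K t l P n x}

/-- The cyclotomic polynomial `C_P(X) / X` with coefficients read in `K` through `T ↦ t`. -/
noncomputable def Phi (t : K) (P : F[X]) : K[X] := divX (act (C t) P X)

/-- `L ⊗ K = K[X] / (C_P(X) / X)`. -/
abbrev Linf (t : K) (P : F[X]) : Type := AdjoinRoot (Phi t P)

/-- The torsion point `λ`, the class of `X`. -/
noncomputable def lam (t : K) (P : F[X]) : Linf t P := AdjoinRoot.root (Phi t P)

/-- The image of `T`. -/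
noncomputable def TL (t : K) (P : F[X]) : Linf t P := algebraMap K (Linf t P) t

/-- The number of elements of the `ω ^ (1 - n)` eigenspace of
`(L ⊗ K) / (F[T, λ] + C_P (L ⊗ K))`. -/
noncomputable def eigCard (t : K) (P : F[X]) (n : ℕ) : ℕ :=
  Nat.card (EigR K (TL t P) (lam t P) P n)

/-- The cokernel of a matrix. -/
abbrev Cok {A : Type} [CommRing A] {r s : ℕ} (M : Matrix (Fin r) (Fin s) A) : Type :=
  (Fin r → A) ⧸ LinearMap.range M.mulVecLin

/-- `D` kills the module `N`. -/
def Kills {A : Type} [CommRing A] (D : A) (N : Type) [AddCommGroup N] [Module A N] : Prop :=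
  ∀ y : N, D • y = 0

/-- `D` kills the cokernel of `M`. -/
def KillsCok {A : Type} [CommRing A] {r s : ℕ} (D : A) (M : Matrix (Fin r) (Fin s) A) : Prop :=
  Kills D (Cok M)

/-- The number of elements of `N / P N`, `N` the cokernel of `M`. -/
noncomputable def cokCard {A : Type} [CommRing A] {r s : ℕ} (P : A)
    (M : Matrix (Fin r) (Fin s) A) : ℕ := Nat.card (QuotSMulTop P (Cok M))

/-- `β_j = ∏_{i < j} (z ^ q ^ i - T) ^ c i`. -/
noncomputable def beta {A : Type} [CommRing A] (q : ℕ) (z : A) (c : ℕ → ℕ) (j : ℕ) : A[X] :=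
  ∏ i ∈ Finset.range j, (C (z ^ q ^ i) - X) ^ c i

/-- Coefficient of `T ^ (-n)` in `p(T) T ^ (-m)`. -/
noncomputable def cf {A : Type} [CommRing A] (p : A[X]) (m n : ℕ) : A :=
  if n ≤ m then p.coeff (m - n) else 0

/-- The matrix of `(T - a) + β τ` from the span of `T ^ (-1), …, T ^ (-r - 1)` to the span of
`T ^ (-1), …, T ^ (-r)`. -/
noncomputable def Mw {A : Type} [CommRing A] (q r : ℕ) (a : A) (β : A[X]) :
    Matrix (Fin r) (Fin (r + 1)) A :=
  Matrix.of fun i j => cf (X - C a) (j + 1) (i + 1) + cf β (q * (j + 1)) (i + 1)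

/-- The `i`-th digit of `m` in base `q`. -/
def dig (q m i : ℕ) : ℕ := m / q ^ i % q

/-- `r = ⌊(s - 1) / (q - 1)⌋ - 1` (truncated at `0`), `s` the digit sum of `q ^ k - n`. -/
def rk (q k n : ℕ) : ℕ := (∑ i ∈ Finset.range k, dig q (q ^ k - n) i - 1) / (q - 1) - 1

variable (F)

/-- The `r × (r + 1)` matrix over `A = F[t]` of `(T - t ^ q ^ k) + β τ`,
`β = ∏_{i < k} (t ^ q ^ i - T) ^ c_i`, `c_i` the digits of `q ^ k - n`. -/
noncomputable def Kmat (k n : ℕ) :
    Matrix (Fin (rk (Fintype.card F) k n)) (Fin (rk (Fintype.card F) k n + 1)) F[X] :=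
  Mw (Fintype.card F) _ (X ^ Fintype.card F ^ k)
    (beta (Fintype.card F) X (dig (Fintype.card F) (Fintype.card F ^ k - n)) k)

end Pool.Agent.K12
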