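import Pool.Agent.Lib.MP_091276_al.Main
import Pool.Agent.Lib.MP_091276_al.KU.Lau

/-! The exact finite form of the twisted operator, and an example. -/

namespace Pool.Agent.K12

open Polynomial

theorem Mw_map {A B : Type} [CommRing A] [CommRing B] (f : A →+* B) (q r : ℕ) (a : A)
    (β : A[X]) : (Mw q r a β).map f = Mw q r (f a) (β.map f) := by
  have h : ∀ (p : A[X]) m n, f (cf p m n) = cf (p.map f) m n := fun p m n => by
    unfold cf; split_ifs <;> simp
  ext i j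
  simp [Mw, h]

theorem Mw_castSucc {A : Type} [CommRing A] (q r : ℕ) (a : A) (β : A[X]) (i j : Fin r) :
    Mw q r a β i j.castSucc = Mx q r a β i j := rfl

theorem Mw_eq_mat {A : Type} [CommRing A] (q r : ℕ) (a : A) (β : A[X]) (i : Fin r)
    (j : Fin (r + 1)) : Mw q r a β i j = Pool.Agent.Lib.KU.mat q a β i j := by
  simp only [Mw, Matrix.of_apply, Pool.Agent.Lib.KU.mat, cf, coeff_X_pow_mul']

variable {F : Type} [Field F] [Fintype F] {E : Type} [Field E] [Algebra F E]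

/-- Pointwise form: `y ∈ E[T] + Λ_d B` iff the truncation of `w y` lies in the range of `Mw`. -/
theorem mem_iff_Mw (hq : Fintype.card F ≠ 0) {z : E} {c : ℕ → ℕ} {k d r : ℕ} (hkd : k ≤ d)
    (hc : ∀ i, k ≤ i → c i = Fintype.card F - 1)
    (hz : ∀ i j, i < j → j < d → z ^ Fintype.card F ^ i ≠ z ^ Fintype.card F ^ j)
    (hr : ∑ i ∈ Finset.range k, c i + (r + 2) ≤ Fintype.card F * (r + 2)) :
    ∃ w : LaurentSeries E, w ≠ 0 ∧ ∀ y : LaurentSeries E,
      (∃ (p : E[X]) (u : LaurentSeries E), y = evT E p +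
        (evT E (X - C (z ^ Fintype.card F ^ d)) * u +
          evT E (beta (Fintype.card F) z c d) * tauS E hq u)) ↔
      ∃ v, (Mw (Fintype.card F) r (z ^ Fintype.card F ^ k) (beta (Fintype.card F) z c k)).mulVec v
        = fun i : Fin r => (w * y).coeff ((i + 1 : ℕ) : ℤ) := by
  have hq1 : 1 ≤ Fintype.card F := Nat.pos_of_ne_zero hq
  obtain ⟨m, rfl⟩ := Nat.exists_eq_add_of_le hkd
  obtain ⟨w, hw, h⟩ := Pool.Agent.Lib.KU.twist_chain (c := HahnSeries.C)
    (T := Pool.Agent.Lib.KU.TT E) (τ := tauS E hq) hq1 (tauS_C hq)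
    (by rw [Pool.Agent.Lib.KU.TT, tauS_single, HahnSeries.single_pow]; simp)
    Pool.Agent.Lib.KU.C_ne_TT
    (fun x y => map_sub (FiniteField.frobeniusAlgHom F (LaurentSeries E)) x y)
    (z := fun i => z ^ Fintype.card F ^ i) (fun i => by rw [← pow_mul, pow_succ])
    (d := k + m) (k := k) (fun i hi j hj h => by
      rcases lt_trichotomy i j with h1 | h1 | h1
      · exact absurd h (hz i j h1 hj)
      · exact h1
      · exact absurd h.symm (hz j i h1 hi)) c (fun i hi _ => hc i hi) m le_rfl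
  refine ⟨w, hw, fun y => ?_⟩
  have h1 := (h y).trans (Pool.Agent.Lib.KU.inS_iff (r := r) hq1 (tauS_single hq)
    (fun m y hy => Ge.tauS hq hy) ((beta_deg _ z c k).trans (by
      obtain ⟨q, hq'⟩ : ∃ q, Fintype.card F = q + 1 := ⟨Fintype.card F - 1, by omega⟩
      rw [hq'] at hr ⊢
      rw [Nat.add_sub_cancel]
      nlinarith)) (w * y))
  refine Iff.trans ?_ (h1.trans ?_)
  · simp only [Pool.Agent.Lib.KU.InS, Pool.Agent.Lib.KU.Lam, map_sub, evT_X, evT_C]
    rfl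
  · refine exists_congr fun v => ?_
    rw [eq_comm, funext_iff]
    simp only [Matrix.mulVec, dotProduct, Mw_eq_mat]

theorem trunc_surj {w : LaurentSeries E} (hw : w ≠ 0) {r : ℕ} (v : Fin r → E) :
    ∃ y : LaurentSeries E, (fun i : Fin r => (w * y).coeff ((i + 1 : ℕ) : ℤ)) = v := by
  refine ⟨w⁻¹ * ∑ j : Fin r, HahnSeries.single ((j + 1 : ℕ) : ℤ) (v j), funext fun i => ?_⟩
  rw [mul_inv_cancel_left₀ hw, HahnSeries.coeff_sum, Finset.sum_eq_single i,
    HahnSeries.coeff_single_same]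
  · exact fun j _ hj => HahnSeries.coeff_single_of_ne fun h => hj (Fin.ext (by omega))
  · simp

theorem surj_iff_Mw (hq : Fintype.card F ≠ 0) {z : E} {c : ℕ → ℕ} {k d r : ℕ} (hkd : k ≤ d)
    (hc : ∀ i, k ≤ i → c i = Fintype.card F - 1)
    (hz : ∀ i j, i < j → j < d → z ^ Fintype.card F ^ i ≠ z ^ Fintype.card F ^ j)
    (hr : ∑ i ∈ Finset.range k, c i + (r + 2) ≤ Fintype.card F * (r + 2)) :
    Surj (evT E) (tauS E hq) (z ^ Fintype.card F ^ d) (beta (Fintype.card F) z c d) ↔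
      Function.Surjective (Mw (Fintype.card F) r (z ^ Fintype.card F ^ k)
        (beta (Fintype.card F) z c k)).mulVec := by
  obtain ⟨w, hw, h⟩ := mem_iff_Mw hq hkd hc hz hr
  refine ⟨fun hS v => ?_, fun hS y => (h y).2 (hS _)⟩
  obtain ⟨y, rfl⟩ := trunc_surj hw v
  exact (h y).1 (hS y)

theorem ex_cube : ∀ x : ZMod 7, x ^ 3 - 3 ≠ 0 := by decide

theorem ex_irreducible [Fact (Nat.Prime 7)] : Irreducible (X ^ 3 - C 3 : (ZMod 7)[X]) := by
  refine irreducible_of_degree_le_three_of_not_isRoot (by rw [natDegree_X_pow_sub_C]; decide)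
    fun x hx => ?_
  rw [IsRoot.def, eval_sub, eval_pow, eval_X, eval_C] at hx
  exact ex_cube x hx

theorem ex_zero {A : Type} [CommRing A] (h7 : (7 : A) = 0) {z : A} (hz : z ^ 3 = 3) {c : ℕ → ℕ}
    (h0 : c 0 = 5) (h1 : c 1 = 6) (h2 : c 2 = 5) : Mw 7 1 (z ^ 7 ^ 3) (beta 7 z c 3) = 0 := by
  have z1 : z ^ 7 = 2 * z := by linear_combination (z ^ 4 + 3 * z) * hz + z * h7
  have z2 : z ^ 7 ^ 2 = 4 * z := by
    rw [pow_two, pow_mul, z1, mul_pow, z1]; linear_combination 36 * z * h7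
  have z3 : z ^ 7 ^ 3 = z := by
    rw [pow_succ 7 2, pow_mul, z2, mul_pow, z1]; linear_combination 4681 * z * h7
  have e7 : (7 : A[X]) = 0 := by rw [← map_ofNat C 7, h7, map_zero]
  have e3 : (C z : A[X]) ^ 3 = 3 := by rw [← map_pow, hz, map_ofNat]
  have hb : beta 7 z c 3 = (C 3 - X ^ 3) ^ 5 * (C (2 * z) - X) := by
    have : (C z - X) * (C (2 * z) - X) * (C (4 * z) - X) = (C 3 - X ^ 3 : A[X]) := by
      simp only [map_mul, map_ofNat]
      linear_combination 8 * e3 + (3 - 2 * C z ^ 2 * X + C z * X ^ 2) * e7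
    simp only [beta, Finset.prod_range_succ, Finset.prod_range_zero, h0, h1, h2, pow_zero,
      pow_one, z1, z2, one_mul]
    rw [← this]; ring
  have hb' : beta 7 z c 3 = monomial 0 (486 * z) + monomial 1 (-243) + monomial 3 (-810 * z)
      + monomial 4 405 + monomial 6 (540 * z) + monomial 7 (-270) + monomial 9 (-180 * z)
      + monomial 10 90 + monomial 12 (30 * z) + monomial 13 (-15) + monomial 15 (-2 * z)
      + monomial 16 1 := by
    rw [hb]
    simp only [← C_mul_X_pow_eq_monomial, map_mul, map_neg, map_ofNat, map_one]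
    ring
  ext i j
  rw [hb', z3]
  fin_cases i
  fin_cases j
  · simp [Mw, cf, coeff_monomial, coeff_X]
    linear_combination 77 * z * h7
  · simp [Mw, cf, coeff_monomial, coeff_X, coeff_C]
    linear_combination (-2) * h7

theorem ex_dvd [Fact (Nat.Prime 7)] {c : ℕ → ℕ} (h0 : c 0 = 5) (h1 : c 1 = 6) (h2 : c 2 = 5)
    (i : Fin 1) (j : Fin 2) : (X ^ 3 - C 3 : (ZMod 7)[X]) ∣
      Mw 7 1 (X ^ 7 ^ 3) (beta 7 (X : (ZMod 7)[X]) c 3) i j := by
  rw [← AdjoinRoot.mk_eq_zero]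
  have h := ex_zero (A := AdjoinRoot (X ^ 3 - C 3 : (ZMod 7)[X])) (z := AdjoinRoot.root _)
    (by
      have := congrArg (AdjoinRoot.of (X ^ 3 - C 3 : (ZMod 7)[X])) (show (7 : ZMod 7) = 0 from rfl)
      rwa [map_ofNat, map_zero] at this)
    (by
      have := AdjoinRoot.mk_self (f := (X ^ 3 - C 3 : (ZMod 7)[X]))
      rwa [map_sub, map_pow, AdjoinRoot.mk_X, map_ofNat C, map_ofNat, sub_eq_zero] at this)
    h0 h1 h2
  have h3 := Mw_map (AdjoinRoot.mk (X ^ 3 - C 3 : (ZMod 7)[X])) 7 1 (X ^ 7 ^ 3) (beta 7 X c 3)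
  rw [beta_map, map_pow, AdjoinRoot.mk_X, h] at h3
  exact congrFun (congrFun h3 i) j

theorem ex_not_surj {A : Type} [CommRing A] [Nontrivial A] (h7 : (7 : A) = 0) {z : A}
    (hz : z ^ 3 = 3) {c : ℕ → ℕ} (h0 : c 0 = 5) (h1 : c 1 = 6) (h2 : c 2 = 5) :
    ¬ Function.Surjective (Mw 7 1 (z ^ 7 ^ 3) (beta 7 z c 3)).mulVec := by
  intro h
  obtain ⟨v, hv⟩ := h 1
  rw [ex_zero h7 hz h0 h1 h2, Matrix.zero_mulVec] at hv
  exact zero_ne_one (congrFun hv 0)

end Pool.Agent.K12
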