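import Pool.Agent.Lib.MP_091276_al.Carl

/-! Torsion points, the Galois action and its invariants. -/

namespace Pool.Agent.K12

open Polynomial

set_option linter.unusedSectionVars false

variable {F : Type} [Field F] [Fintype F] {K : Type} [Field K] [Algebra F K]
  {E : Type} [Field E] [Fintype E] [Algebra F E]

theorem ev_carl (t : K) (P a : F[X]) (y : Linf t P) :
    aeval y (carl F (C t) a (X : K[X])) = carl F (TL t P) a y := by
  have h := map_carl ((aeval y : K[X] →ₐ[K] Linf t P).restrictScalars F) (C t) X a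
  simpa [TL] using h

theorem carl_P_lam (t : K) (P : F[X]) : carl F (TL t P) P (lam t P) = 0 := by
  rw [← ev_carl, ← X_mul_Phi, map_mul, lam, AdjoinRoot.aeval_eq (Phi t P), AdjoinRoot.mk_self,
    mul_zero]

theorem lam_unit {t : K} {P : F[X]} (ht : aeval t P ≠ 0) : IsUnit (lam t P) := by
  have h := congrArg (aeval (lam t P)) (X_mul_divX_add (Phi t P))
  rw [map_add, map_mul, aeval_X, aeval_C, Phi_zero, lam, AdjoinRoot.aeval_eq (Phi t P),
    AdjoinRoot.mk_self, add_eq_zero_iff_eq_neg] at h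
  exact isUnit_of_mul_isUnit_left (h ▸ ((IsUnit.mk0 _ ht).map _).neg)

theorem exists_setup {t : K} {P : F[X]} (ht : aeval t P ≠ 0) [Nontrivial (Linf t P)] {z : E}
    (hk : ∀ a : F[X], aeval z a = 0 ↔ P ∣ a) (s : E →ₗ[F] F[X]) (hs : ∀ b, aeval z (s b) = b)
    (hc : Fintype.card E = Fintype.card F ^ P.natDegree) :
    ∃ (χ : E →ₗ[F] Linf t P) (σ : Eˣ → Linf t P →ₐ[K] Linf t P),
      (∀ b, χ b = carl F (TL t P) (s b) (lam t P)) ∧ χ 1 = lam t P ∧
      (∀ a b, carl F (TL t P) a (χ b) = χ (aeval z a * b)) ∧ (∀ b, b ≠ 0 → IsUnit (χ b)) ∧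
      (∀ c, σ c (lam t P) = χ c) ∧
      (∀ c b, σ c (χ b) = χ (c * b)) ∧ (∀ c b x, σ c (σ b x) = σ (c * b) x) ∧
      ∀ x, (∀ c, σ c x = x) → ∃ w, algebraMap K _ w = x := by
  classical
  let χ : E →ₗ[F] Linf t P :=
    (LinearMap.applyₗ (lam t P)) ∘ₗ (carl F (TL t P)).toLinearMap ∘ₗ s
  have h0 : ∀ b, χ b = carl F (TL t P) (s b) (lam t P) := fun b => rfl
  have hcg : ∀ a b : F[X], aeval z a = aeval z b →
      carl F (TL t P) a (lam t P) = carl F (TL t P) b (lam t P) := by
    intro a b h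
    obtain ⟨c, hc⟩ := (hk (a - b)).1 (by rw [map_sub, h, sub_self])
    rw [← sub_eq_zero, ← carl_sub, hc, mul_comm, carl_mul, carl_P_lam, map_zero]
  have h1 : ∀ a b, carl F (TL t P) a (χ b) = χ (aeval z a * b) := by
    intro a b
    rw [h0, h0, ← carl_mul]
    exact hcg _ _ (by rw [map_mul, hs, hs])
  have h2 : χ 1 = lam t P := by
    rw [h0, hcg (s 1) 1 (by rw [hs, map_one]), carl_one]
  have h3 : ∀ b, b ≠ 0 → IsUnit (χ b) := by
    intro b hb
    have h := dvd_carl (TL t P) (χ b) (s b⁻¹)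
    rw [h1, hs, inv_mul_cancel₀ hb, h2] at h
    exact isUnit_of_dvd_unit h (lam_unit ht)
  have h4 : ∀ c : Eˣ, aeval (χ c) (Phi t P) = 0 := by
    intro c
    have h := ev_carl t P P (χ c)
    rw [← X_mul_Phi, map_mul, aeval_X, h1, (hk P).2 dvd_rfl, zero_mul, map_zero] at h
    exact (h3 c c.ne_zero).mul_right_eq_zero.1 h
  let σ : Eˣ → Linf t P →ₐ[K] Linf t P := fun c =>
    AdjoinRoot.liftAlgHom (Phi t P) (Algebra.ofId K _) (χ c) (h4 c)
  have h5 : ∀ c, σ c (lam t P) = χ c := fun c => AdjoinRoot.liftAlgHom_root _ _ _ _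
  have h6 : ∀ (c : Eˣ) b, σ c (χ b) = χ (c * b) := by
    intro c b
    have h := map_carl ((σ c).restrictScalars F) (TL t P) (lam t P) (s b)
    rw [AlgHom.restrictScalars_apply, AlgHom.restrictScalars_apply, AlgHom.restrictScalars_apply,
      h5, TL, AlgHom.commutes, ← TL, h1, hs, mul_comm] at h
    exact h
  refine ⟨χ, σ, h0, h2, h1, h3, h5, h6, fun c b x => ?_, fun x hx => ?_⟩
  · have : (σ c).comp (σ b) = σ (c * b) := AdjoinRoot.algHom_ext (by
      change σ c (σ b (lam t P)) = σ (c * b) (lam t P)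
      rw [h5, h5, h6, Units.val_mul])
    exact DFunLike.congr_fun this x
  · have hP : Phi t P ≠ 0 := fun h => ht (by rw [← Phi_zero, h, coeff_zero])
    have hd : (Phi t P).natDegree ≠ 0 := by
      intro h
      have h7 := (congrArg (AdjoinRoot.mk (Phi t P)) (eq_C_of_natDegree_eq_zero h)).symm.trans
        AdjoinRoot.mk_self
      rw [Phi_zero, AdjoinRoot.mk_C] at h7
      exact ((IsUnit.mk0 _ ht).map (AdjoinRoot.of (Phi t P))).ne_zero h7
    obtain ⟨p, rfl⟩ := AdjoinRoot.mk_surjective x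
    have h7 : AdjoinRoot.mk (Phi t P) p = aeval (lam t P) (p % Phi t P) := by
      rw [lam, AdjoinRoot.aeval_eq, AdjoinRoot.mk_eq_mk]
      exact ⟨p / Phi t P, by rw [EuclideanDomain.mod_eq_sub_mul_div]; ring⟩
    rw [h7] at hx ⊢
    have h8 := natDegree_mod_lt p hd
    generalize p % Phi t P = h at hx h8 ⊢
    have h9 := zero_of_roots (Finset.univ : Finset Eˣ) (fun c => χ c)
      (fun i _ j _ hij => by
        rw [← map_sub]
        exact h3 _ (sub_ne_zero.2 fun e => hij (Units.ext e)))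
      (h.map (algebraMap K (Linf t P)) - C (aeval (lam t P) h))
      (by
        rw [natDegree_sub_C, Finset.card_univ, Fintype.card_units, hc]
        exact natDegree_map_le.trans_lt (h8.trans_le (deg_Phi t P)))
      (fun c _ => by
        rw [eval_sub, eval_C, eval_map_algebraMap, ← h5, aeval_algHom_apply, hx, sub_self])
    have h10 := congrArg (fun p => p.coeff 0) h9
    simp only [coeff_sub, coeff_map, coeff_C_zero, coeff_zero, sub_eq_zero] at h10
    exact ⟨_, h10⟩

theorem monic_carl_pow (t : K) (i : ℕ) : (carl F (C t) (X ^ i) (X : K[X])).Monic ∧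
    (carl F (C t) (X ^ i) (X : K[X])).natDegree = Fintype.card F ^ i := by
  induction i with
  | zero => rw [pow_zero, carl_one]; simp
  | succ i h =>
    have h1 : (C t * carl F (C t) (X ^ i) (X : K[X])).natDegree <
        (carl F (C t) (X ^ i) (X : K[X]) ^ Fintype.card F).natDegree := by
      rw [natDegree_pow, h.2, ← pow_succ']
      exact (natDegree_C_mul_le _ _).trans_lt
        (h.2 ▸ Nat.pow_lt_pow_right Fintype.one_lt_card i.lt_succ_self)
    rw [pow_succ', carl_mul, carl_X, natDegree_add_eq_right_of_natDegree_lt h1, natDegree_pow, h.2,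
      pow_succ']
    exact ⟨(h.1.pow _).add_of_right (degree_lt_degree h1), rfl⟩

theorem monic_carl (t : K) {P : F[X]} (hm : P.Monic) : (carl F (C t) P (X : K[X])).Monic ∧
    (carl F (C t) P (X : K[X])).natDegree = Fintype.card F ^ P.natDegree := by
  have h : (∑ i ∈ Finset.range P.natDegree, carl F (C t) (C (P.coeff i) * X ^ i)
      (X : K[X])).degree < (carl F (C t) (X ^ P.natDegree) (X : K[X])).degree := by
    rw [degree_eq_natDegree (monic_carl_pow t _).1.ne_zero, (monic_carl_pow t _).2]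
    refine (degree_sum_le _ _).trans_lt
      ((Finset.sup_lt_iff (WithBot.bot_lt_coe _)).2 fun i hi => ?_)
    rw [carl_mul, carl_C]
    refine (degree_smul_le _ _).trans_lt (degree_le_natDegree.trans_lt ?_)
    rw [(monic_carl_pow t _).2]
    exact_mod_cast Nat.pow_lt_pow_right Fintype.one_lt_card (Finset.mem_range.1 hi)
  have e := congrArg (fun a => carl F (C t) a (X : K[X])) hm.as_sum
  simp only [map_add, LinearMap.add_apply, map_sum, LinearMap.sum_apply] at e
  rw [e, natDegree_add_eq_left_of_degree_lt h]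
  exact ⟨(monic_carl_pow t _).1.add_of_left h, (monic_carl_pow t _).2⟩

theorem monic_Phi (t : K) {P : F[X]} (hm : P.Monic) : (Phi t P).Monic :=
  monic_X.of_mul_monic_left (X_mul_Phi t P ▸ (monic_carl t hm).1)

theorem nontrivial_Linf (t : K) {P : F[X]} (hm : P.Monic) (hd : P.natDegree ≠ 0) :
    Nontrivial (Linf t P) := AdjoinRoot.nontrivial _ fun h => by
  have h1 := (monic_carl t hm).2
  rw [← X_mul_Phi, natDegree_X_mul (monic_Phi t hm).ne_zero, natDegree_eq_of_degree_eq_some h] at h1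
  exact (Nat.one_lt_pow hd Fintype.one_lt_card).ne h1

theorem exists_retr (t : K) {P : F[X]} (hm : P.Monic) [Nontrivial (Linf t P)] :
    ∃ ρ : Linf t P →ₗ[K] K, (∀ w, ρ (algebraMap K _ w) = w) ∧
      ∀ o ∈ Algebra.adjoin F {TL t P, lam t P}, ∃ a : F[X], ρ o = aeval t a := by
  have h0 := monic_Phi t hm
  let f : F[X][X] →ₐ[F] K[X] := mapAlgHom (aeval t)
  have h1 : Phi t P ∈ lifts ((aeval t : F[X] →ₐ[F] K) : F[X] →+* K) := by
    refine ⟨divX (carl F (C X) P X), ?_⟩
    have h := map_carl f (C X) X P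
    simp only [f, coe_mapAlgHom, map_C, map_X, RingHom.coe_coe, aeval_X] at h
    ext i
    simp [Phi_def, coeff_divX, ← h]
  obtain ⟨Q, q1, -, q2⟩ := lifts_and_natDegree_eq_and_monic h1 h0
  refine ⟨lcoeff K 0 ∘ₗ AdjoinRoot.modByMonicHom h0, fun w => ?_, fun o ho => ?_⟩
  · have h2 : (C w).degree < (Phi t P).degree := degree_C_le.trans_lt (by
      refine not_le.1 fun h => ?_
      have h3 := AdjoinRoot.mk_self (f := Phi t P)
      rw [congrArg (AdjoinRoot.mk (Phi t P)) ((h0.degree_le_zero_iff_eq_one).1 h), map_one] at h3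
      exact one_ne_zero h3)
    rw [AdjoinRoot.algebraMap_eq, ← AdjoinRoot.mk_C, LinearMap.comp_apply,
      AdjoinRoot.modByMonicHom_mk, (modByMonic_eq_self_iff h0).2 h2, lcoeff_apply, coeff_C_zero]
  · obtain ⟨p, rfl⟩ : o ∈ (((aeval (lam t P) : K[X] →ₐ[K] _).restrictScalars F).comp f).range := by
      refine Algebra.adjoin_le ?_ ho
      rintro _ (rfl | rfl)
      · exact ⟨C X, by simp [f, TL]⟩
      · exact ⟨X, by simp [f]⟩
    refine ⟨(p %ₘ Q).coeff 0, ?_⟩
    change (AdjoinRoot.modByMonicHom h0 (aeval (AdjoinRoot.root _)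
      (p.map ((aeval t : F[X] →ₐ[F] K) : F[X] →+* K)))).coeff 0 = _
    rw [AdjoinRoot.aeval_eq, AdjoinRoot.modByMonicHom_mk, ← q1, ← map_modByMonic _ q2, coeff_map]
    rfl

end Pool.Agent.K12
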