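import Pool.Agent.Lib.MP_091276_al.Carl

/-! Gauss-Thakur sums. -/

namespace Pool.Agent.K12

open Polynomial TensorProduct

set_option linter.unusedSectionVars false

variable {F : Type} [Field F] [Fintype F] {L : Type} [CommRing L] [Algebra F L]
  {E : Type} [Field E] [Fintype E] [Algebra F E]

/-- Extension of scalars of an `F`-algebra endomorphism. -/
noncomputable def up (E : Type) [Field E] [Algebra F E] (f : L →ₐ[F] L) :
    E ⊗[F] L →ₐ[E] E ⊗[F] L := Algebra.TensorProduct.map (AlgHom.id E E) f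

theorem up_tmul (f : L →ₐ[F] L) (a : E) (y : L) : up E f (a ⊗ₜ y) = a ⊗ₜ f y := rfl

/-- The partial Frobenius on the second factor. -/
noncomputable def tauR (E : Type) [Field E] [Algebra F E] : E ⊗[F] L →ₐ[E] E ⊗[F] L :=
  up E (FiniteField.frobeniusAlgHom F L)

theorem tauR_tmul (a : E) (y : L) : tauR E (a ⊗ₜ[F] y) = a ⊗ₜ (y ^ Fintype.card F) := rfl

theorem alg_mul (c a : E) (y : L) : algebraMap E (E ⊗[F] L) c * a ⊗ₜ y = (c * a) ⊗ₜ y := by
  rw [Algebra.TensorProduct.algebraMap_apply, Algebra.TensorProduct.tmul_mul_tmul, one_mul]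
  rfl

theorem sum_units_const {V : Type} [AddCommGroup V] [Module F V] [DecidableEq E] (v : V) :
    ∑ _b : Eˣ, v = -v := by
  have h : ((Fintype.card E : ℕ) : F) = 0 := (algebraMap F E).injective (by
    rw [map_natCast, FiniteField.cast_card_eq_zero, map_zero])
  rw [Finset.sum_const, Finset.card_univ, Fintype.card_units, ← Nat.cast_smul_eq_nsmul F,
    Nat.cast_sub Fintype.card_pos, h]
  simp

/-- The Gauss-Thakur sum `∑ b⁻¹ ^ m ⊗ χ b`. -/
noncomputable def G (χ : E →ₗ[F] L) (m : ℕ) : E ⊗[F] L := ∑ b : E, (b⁻¹ ^ m) ⊗ₜ χ b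

theorem G_shift (χ : E →ₗ[F] L) {m : ℕ} (hm : m ≠ 0) (c : E) :
    ∑ b : E, (b⁻¹ ^ m) ⊗ₜ[F] χ (c * b) = algebraMap E _ (c ^ m) * G χ m := by
  by_cases hc : c = 0
  · simp [hc, hm]
  rw [G, Finset.mul_sum]
  refine Fintype.sum_equiv (Equiv.mulLeft₀ c hc) _ _ fun b => ?_
  rw [alg_mul, Equiv.mulLeft₀_apply, ← mul_pow, mul_inv, mul_inv_cancel_left₀ hc]

theorem G_sig (χ : E →ₗ[F] L) {m : ℕ} (hm : m ≠ 0) {c : E} {f : L →ₐ[F] L}
    (h : ∀ b, f (χ b) = χ (c * b)) : up E f (G χ m) = algebraMap E _ (c ^ m) * G χ m := by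
  rw [← G_shift χ hm, G, map_sum]
  exact Finset.sum_congr rfl fun b _ => by rw [up_tmul, h]

theorem G_tau (χ : E →ₗ[F] L) {m : ℕ} (hm : m ≠ 0) {z : E} {t : L}
    (h : ∀ a b, carl F t a (χ b) = χ (aeval z a * b)) :
    tauR E (G χ m) = (algebraMap E _ (z ^ m) - 1 ⊗ₜ t) * G χ m := by
  rw [sub_mul, ← G_shift χ hm, G, map_sum, Finset.mul_sum, ← Finset.sum_sub_distrib]
  refine Finset.sum_congr rfl fun b _ => ?_
  have h1 := h X b
  rw [carl_X, aeval_X] at h1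
  rw [tauR_tmul, Algebra.TensorProduct.tmul_mul_tmul, one_mul, ← h1, tmul_add,
    add_sub_cancel_left]

theorem G_pow (χ : E →ₗ[F] L) (m : ℕ) :
    G χ m ^ Fintype.card F = tauR E (G χ (m * Fintype.card F)) := by
  have h := map_sum (FiniteField.frobeniusAlgHom F (E ⊗[F] L))
    (fun b : E => (b⁻¹ ^ m) ⊗ₜ[F] χ b) Finset.univ
  rw [G, G, map_sum]
  refine h.trans (Finset.sum_congr rfl fun b _ => ?_)
  rw [tauR_tmul, pow_mul, ← Algebra.TensorProduct.tmul_pow]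
  rfl

theorem G_card (χ : E →ₗ[F] L) : G χ (Fintype.card E) = G χ 1 := by
  simp [G, FiniteField.pow_card]

theorem G_ne [Nontrivial L] (χ : E →ₗ[F] L) (h : ∀ b, b ≠ 0 → IsUnit (χ b)) : G χ 1 ≠ 0 := by
  classical
  obtain ⟨ρ, hρ⟩ := χ.exists_leftInverse_of_injective (LinearMap.ker_eq_bot'.2 fun b hb => by
    by_contra h0
    exact (h b h0).ne_zero hb)
  have h1 : ∀ b, ρ (χ b) = b := fun b => DFunLike.congr_fun hρ b
  intro h0
  have h2 := congrArg (LinearMap.mul' F E ∘ₗ ρ.lTensor E) h0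
  rw [G, map_sum, map_zero] at h2
  simp only [LinearMap.comp_apply, LinearMap.lTensor_tmul, LinearMap.mul'_apply, h1, pow_one] at h2
  rw [← Finset.add_sum_erase _ _ (Finset.mem_univ (0 : E)), mul_zero, zero_add,
    Finset.sum_congr rfl fun b hb => inv_mul_cancel₀ (Finset.ne_of_mem_erase hb),
    Finset.sum_const, Finset.card_erase_of_mem (Finset.mem_univ _), Finset.card_univ,
    nsmul_eq_mul, mul_one, Nat.cast_sub Fintype.card_pos, FiniteField.cast_card_eq_zero] at h2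
  simp at h2

theorem G_unit [Nontrivial L] (χ : E →ₗ[F] L) (h : ∀ b, b ≠ 0 → IsUnit (χ b)) {z : E} {t : L}
    (h1 : ∀ a b, carl F t a (χ b) = χ (aeval z a * b)) {d : ℕ}
    (hc : Fintype.card E = Fintype.card F ^ d)
    (hu : ∀ c : E, IsUnit (algebraMap E (E ⊗[F] L) c - 1 ⊗ₜ t))
    (hf : G χ 1 ^ (Fintype.card E - 1) ≠ 0 → IsUnit (G χ 1 ^ (Fintype.card E - 1))) (i : ℕ) :
    IsUnit (G χ (Fintype.card F ^ i)) := by
  have h2 : ∀ j, ∃ u, IsUnit u ∧ G χ 1 ^ Fintype.card F ^ j = u * G χ (Fintype.card F ^ j) := by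
    intro j
    induction j with
    | zero => exact ⟨1, isUnit_one, by simp⟩
    | succ j ih =>
      obtain ⟨u, hu1, hu2⟩ := ih
      refine ⟨_, (hu1.pow (Fintype.card F)).mul (hu (z ^ Fintype.card F ^ (j + 1))), ?_⟩
      rw [pow_succ, pow_mul, hu2, mul_pow, G_pow, ← pow_succ,
        G_tau χ (pow_ne_zero _ Fintype.card_ne_zero) h1, mul_assoc]
  have h3 : IsUnit (G χ 1) := by
    have h4 : 1 < Fintype.card E := Fintype.one_lt_card
    refine (isUnit_pow_iff (by omega)).1 (hf fun h0 => G_ne χ h ?_)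
    obtain ⟨u, hu1, hu2⟩ := h2 d
    rw [← hc, G_card, ← Nat.sub_add_cancel h4.le, pow_succ, h0, zero_mul] at hu2
    exact hu1.mul_right_eq_zero.1 hu2.symm
  obtain ⟨u, -, hu2⟩ := h2 i
  exact isUnit_of_mul_isUnit_right (hu2 ▸ h3.pow _)

end Pool.Agent.K12
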