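import Pool.Agent.Lib.MP_091276_al.Fin
import Pool.Agent.Lib.MP_091276_al.Conv

/-! The eigenspace vanishes exactly when the finite matrix is onto modulo `P`. -/

namespace Pool.Agent.K12

open Polynomial TensorProduct

variable {F : Type} [Field F] [Fintype F] {E : Type} [Field E] [Fintype E] [Algebra F E]

theorem conv_gen {K B : Type} [Field K] [Algebra F K] [Field B] {t : K} {P : F[X]} (hP : P.Monic)
    (ht : aeval t P ≠ 0) [Nontrivial (Linf t P)] {z : E}
    (hk : ∀ a : F[X], aeval z a = 0 ↔ P ∣ a) (s : E →ₗ[F] F[X])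
    (hs : ∀ b, aeval z (s b) = b) (hc : Fintype.card E = Fintype.card F ^ P.natDegree)
    (ev : E[X] →+* B) (τ : B →+* B) (m : K →+* B) (e1 : ev X = m t) (e2 : ∀ p, p ≠ 0 → ev p ≠ 0)
    (e3 : ∀ a : F[X], m (aeval t a) = ev (a.map (algebraMap F E)))
    (e4 : ∀ y, ∃ (k : ℕ) (a : Fin k → E) (w : Fin k → K), ∑ i, ev (C (a i)) * m (w i) = y)
    (e5 : ∀ p, τ (ev p) = ev (expand E (Fintype.card F) p))
    (hι : ∀ (L : Type) [CommRing L] [Algebra F L] [Algebra K L],
      (∀ x, algebraMap F L x = algebraMap K L (algebraMap F K x)) → ∃ ι : B →+* E ⊗[F] L,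
      (∀ a w, ι (ev (C a) * m w) = a ⊗ₜ algebraMap K L w) ∧ ∀ u, ι (τ u) = tauR E (ι u))
    (c : ℕ → ℕ) (n : ℕ) (hm : ∀ b : E, b ≠ 0 →
      b ^ (∑ i ∈ Finset.range P.natDegree, Fintype.card F ^ i * c i) * b ^ (n - 1) = 1)
    (hle : ∀ i < P.natDegree, c i ≤ Fintype.card F - 1) {i0 : ℕ} (hi0 : i0 < P.natDegree)
    (hlt : c i0 < Fintype.card F - 1) (hE : EigenZero t P n) :
    Surj ev τ z (beta (Fintype.card F) z c P.natDegree) := by
  obtain ⟨χ, σ, h0, h00, h1, h2, h3, h4, h5, h6⟩ := exists_setup ht hk s hs hc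
  obtain ⟨ι, i1, i2⟩ := hι (Linf t P) (IsScalarTower.algebraMap_apply F K _)
  obtain ⟨ρ, r1, r2⟩ := exists_retr t hP
  have hT : TL t P ∈ Algebra.adjoin F {TL t P, lam t P} := Algebra.subset_adjoin (by simp)
  have hO : ∀ b, χ b ∈ Algebra.adjoin F {TL t P, lam t P} :=
    fun b => h0 b ▸ carl_mem _ hT (Algebra.subset_adjoin (by simp)) _
  have hf : ∀ f : Linf t P →ₗ[F] Linf t P, (∀ w, f (algebraMap K _ w) = algebraMap K _ w) →
      ∀ y, f.lTensor E (ι y) = ι y := fun f hf y => by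
    obtain ⟨k, a, w, rfl⟩ := e4 y
    simp only [map_sum, i1, LinearMap.lTensor_tmul, hf]
  have : Nontrivial (E ⊗[F] Linf t P) := nontrivial_of_ne _ _ (G_ne χ h2)
  refine conv hk s hs hc χ (fun b => (σ b).restrictScalars F) h1 h2 h4 h5
    ev τ ι (fun a => ?_) ?_ i2 e2 (fun a x hx => ?_) _ hT hO (fun v hv => ?_) (fun b y => ?_) e5
    (fun b o ho => ?_) c (n - 1) hm (conj_ne s hs hc) hle hi0 hlt fun x hx =>
      hE x fun a σ' ha h => ?_
  · have := i1 a 1
    rwa [map_one, mul_one, map_one] at this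
  · have := i1 1 t
    rwa [map_one, map_one, one_mul, ← e1] at this
  · obtain ⟨w, rfl⟩ := h6 x hx
    exact ⟨_, i1 a w⟩
  · let f : Linf t P →ₗ[F] Linf t P := (Algebra.linearMap K _ ∘ₗ ρ).restrictScalars F
    have f0 : ∀ x, f x = algebraMap K _ (ρ x) := fun x => rfl
    have f1 : ∀ r, ∃ p, f.lTensor E (Algebra.TensorProduct.map (AlgHom.id E E)
        (Algebra.adjoin F {TL t P, lam t P}).val r) = ι (ev p) := by
      intro r
      induction r with
      | zero => exact ⟨0, by simp⟩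
      | add a b ha hb =>
        obtain ⟨p, hp⟩ := ha
        obtain ⟨p', hp'⟩ := hb
        exact ⟨p + p', by rw [map_add, map_add, hp, hp', map_add, map_add]⟩
      | tmul a o =>
        obtain ⟨b, hb⟩ := r2 o o.2
        refine ⟨C a * b.map (algebraMap F E), ?_⟩
        rw [map_mul ev, ← e3, i1, ← hb, ← f0]
        rfl
    obtain ⟨r, hr⟩ := hv
    obtain ⟨p, hp⟩ := f1 r
    refine ⟨p, ι.injective ?_⟩
    rw [← hp, ← hf f (fun w => by rw [f0, r1]) v, ← hr]
    rfl
  · exact hf ((σ b).restrictScalars F).toLinearMap (σ b).commutes y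
  · refine Algebra.adjoin_le (S := (Algebra.adjoin F {TL t P, lam t P}).comap
      ((σ b).restrictScalars F)) ?_ ho
    rintro _ (rfl | rfl)
    · have h7 : σ b (TL t P) = TL t P := (σ b).commutes t
      exact (Subalgebra.mem_comap _ _ _).2 (by rwa [AlgHom.restrictScalars_apply, h7])
    · exact (Subalgebra.mem_comap _ _ _).2 ((h3 b).symm ▸ hO b :)
  · have h7 : σ' = σ (Units.mk0 _ (mt (hk a).1 ha)) := AdjoinRoot.algHom_ext (by
      change σ' (lam t P) = σ _ (lam t P)
      rw [h, h3, ← h00, h1, mul_one, Units.val_mk0])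
    exact h7 ▸ hx a _ rfl

omit [Fintype F] [Fintype E] in
theorem span_ser [Module.Finite F E] (y : LaurentSeries E) :
    ∃ (k : ℕ) (a : Fin k → E) (w : Fin k → LaurentSeries F),
      ∑ i, evT E (C (a i)) * mapS F E (w i) = y := by
  refine ⟨_, Module.finBasis F E, fun i => y.map ((Module.finBasis F E).coord i), ?_⟩
  ext n
  rw [HahnSeries.coeff_sum, ← (Module.finBasis F E).sum_repr (y.coeff n)]
  exact Finset.sum_congr rfl fun i _ => by
    rw [evT_C, HahnSeries.C_mul_eq_smul, HahnSeries.coeff_smul, mapS_coeff, smul_eq_mul, mul_comm,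
      Algebra.smul_def]
    rfl

theorem sum_top {q k n : ℕ} {c : ℕ → ℕ} (hq : q ≠ 0) (hc : ∀ i, k ≤ i → c i = q - 1)
    (hN : ∑ i ∈ Finset.range k, q ^ i * c i + n = q ^ k) (j : ℕ) (hj : k ≤ j) :
    ∑ i ∈ Finset.range j, q ^ i * c i + n = q ^ j := by
  induction j, hj using Nat.le_induction with
  | base => exact hN
  | succ j hj ih =>
    rw [Finset.sum_range_succ, add_right_comm, ih, hc j hj, ← mul_one_add, pow_succ]
    congr 1
    omega

theorem eigen_iff {P : F[X]} (hm : P.Monic) (hi : Irreducible P) (c : ℕ → ℕ) {k r n : ℕ}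
    (hk : k ≤ P.natDegree) (hc : ∀ i, k ≤ i → c i = Fintype.card F - 1)
    (hle : ∀ i, c i ≤ Fintype.card F - 1) (hn : 2 ≤ n)
    (hN : ∑ i ∈ Finset.range k, Fintype.card F ^ i * c i + n = Fintype.card F ^ k)
    (hr : ∑ i ∈ Finset.range k, c i + (r + 2) ≤ Fintype.card F * (r + 2)) :
    EigenZero (T F) P n ↔ ∀ y : Fin r → F[X], ∃ u y', y = (Mw (Fintype.card F) r
      (X ^ Fintype.card F ^ k) (beta (Fintype.card F) X c k)).mulVec u + P • y' := by
  have := Fact.mk hi
  have := (AdjoinRoot.powerBasis' hm).finite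
  have : Finite (AdjoinRoot P) := Module.finite_of_finite F
  have := Fintype.ofFinite (AdjoinRoot P)
  have hq : Fintype.card F ≠ 0 := Fintype.card_ne_zero
  have hcard : Fintype.card (AdjoinRoot P) = Fintype.card F ^ P.natDegree := by
    rw [Module.card_eq_pow_finrank (K := F), (AdjoinRoot.powerBasis' hm).finrank]
    rfl
  have hker : ∀ a : F[X], aeval (AdjoinRoot.root P) a = 0 ↔ P ∣ a := fun a => by
    rw [AdjoinRoot.aeval_eq, AdjoinRoot.mk_eq_zero]
  have hs : ∀ b, aeval (AdjoinRoot.root P) (AdjoinRoot.modByMonicHom hm b) = b := fun b => by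
    rw [AdjoinRoot.aeval_eq]
    exact AdjoinRoot.mk_leftInverse hm b
  have hT : ∀ a : F[X], aeval (T F) a = evT F a := fun a => by
    rw [aeval_def, RingHom.ext (LaurentSeries.algebraMap_apply F)]
    rfl
  have ht : aeval (T F) P ≠ 0 := hT P ▸ evT_ne hm.ne_zero
  have e1 : evT (AdjoinRoot P) X = mapS F _ (T F) := by
    rw [evT_X, T, T, mapS_single, map_one (algebraMap F _)]
  have hι : ∀ (L : Type) [CommRing L] [Algebra F L] [Algebra (LaurentSeries F) L],
      (∀ x, algebraMap F L x = algebraMap (LaurentSeries F) L (algebraMap F _ x)) →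
      ∃ ι : LaurentSeries (AdjoinRoot P) →+* AdjoinRoot P ⊗[F] L,
      (∀ a w, ι (evT _ (C a) * mapS F _ w) = a ⊗ₜ algebraMap _ L w) ∧
      ∀ u, ι (tauS _ hq u) = tauR _ (ι u) := fun L _ _ _ hL => by
    simp only [evT_C]
    exact iota_ser hL
  have hb : ∀ b : AdjoinRoot P, b ≠ 0 → b ^ (∑ i ∈ Finset.range P.natDegree,
      Fintype.card F ^ i * c i) * b ^ (n - 1) = 1 := fun b hb => by
    rw [← pow_add, ← FiniteField.pow_card_sub_one_eq_one b hb, hcard, ← sum_top hq hc hN _ hk,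
      Nat.add_sub_assoc (by omega)]
  have h1 := surj_iff_Mw hq hk hc (conj_ne _ hs hcard) hr
  rw [← hcard, FiniteField.pow_card] at h1
  have h2 := Mw_map (AdjoinRoot.mk P) (Fintype.card F) r (X ^ Fintype.card F ^ k)
    (beta (Fintype.card F) X c k)
  rw [beta_map, map_pow, AdjoinRoot.mk_X] at h2
  rw [← h2] at h1
  generalize Mw (Fintype.card F) r ((X : F[X]) ^ Fintype.card F ^ k)
    (beta (Fintype.card F) X c k) = M at h1 ⊢
  refine Iff.trans ?_ (h1.trans ⟨fun h y => ?_, fun h y => ?_⟩)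
  refine ⟨fun h => ?_, fun h => ?_⟩
  · have := nontrivial_Linf (T F) hm hi.natDegree_pos.ne'
    obtain ⟨i0, h3, h4⟩ : ∃ i0 < k, c i0 < Fintype.card F - 1 := by
      by_contra h3
      have h4 := sum_top (k := 0) (n := 1) (c := fun _ => Fintype.card F - 1) hq
        (fun _ _ => rfl) (by simp) k k.zero_le
      rw [Finset.sum_congr rfl fun i hi => by
        rw [le_antisymm (hle i) (not_lt.1 fun h => h3 ⟨i, Finset.mem_range.1 hi, h⟩)]] at hN
      omega
    refine conv_gen hm ht hker _ hs hcard _ _ (mapS F _) e1 (fun _ => evT_ne) (fun a => ?_)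
      span_ser (fun p => ?_) hι c n hb (fun i _ => hle i) (h3.trans_le hk) h4 h
    · rw [hT]
      exact DFunLike.congr_fun (show (mapS F _).comp (evT F) =
        (evT _).comp (mapRingHom (algebraMap F (AdjoinRoot P))) from ringHom_ext (fun x => by
          simp only [RingHom.comp_apply, coe_mapRingHom, map_C, evT_C, HahnSeries.C_apply,
            mapS_single]) (by simpa [evT_X] using e1.symm)) a
    · exact DFunLike.congr_fun (show (tauS _ hq).comp (evT _) =
        (evT _).comp (expand _ (Fintype.card F)).toRingHom from ringHom_ext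
          (fun x => by simp [evT_C, tauS_single])
          (by simp [evT_X, T, tauS_single, HahnSeries.single_pow])) p
  · exact eigen_gen ht hker _ hs hcard _ _ (mapS F _) e1 (fun a => evT_ne fun h =>
      X_sub_C_ne_zero a (by rw [← neg_sub, h, neg_zero])) hι c n hb h
  · obtain ⟨v, hv⟩ := h (AdjoinRoot.mk P ∘ y)
    choose u hu using fun j => AdjoinRoot.mk_surjective (v j)
    choose y' hy using fun i => (show P ∣ y i - M.mulVec u i from AdjoinRoot.mk_eq_mk.1 (by
      rw [RingHom.map_mulVec, show AdjoinRoot.mk P ∘ u = v from funext hu, hv]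
      rfl))
    exact ⟨u, y', funext fun i => sub_eq_iff_eq_add'.1 (hy i)⟩
  · choose v hv using fun j => AdjoinRoot.mk_surjective (y j)
    obtain ⟨u, y', h3⟩ := h v
    refine ⟨AdjoinRoot.mk P ∘ u, funext fun i => ?_⟩
    rw [← RingHom.map_mulVec, ← hv, h3]
    simp

end Pool.Agent.K12
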