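import Pool.Agent.Lib.MP_091276_al.Base
import Pool.Agent.Lib.MP_0370b2_nt.CS.Car

/-! Laurent series over the residue field as a tensor product. -/

namespace Pool.Agent.K12

open Polynomial TensorProduct

variable {F : Type} [Field F] [Fintype F] {E : Type} [Field E] [Fintype E] [Algebra F E]

theorem exists_iota {K B L I : Type} [Field K] [Algebra F K] [Field B] [CommRing L] [Algebra F L]
    [Algebra K L] [IsScalarTower F K L] (c : E →+* B) (m : K →+* B) (τ : B →+* B)
    (hcm : ∀ x : F, c (algebraMap F E x) = m (algebraMap F K x)) [Fintype I]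
    (b : Module.Basis I F E) (hinj : ∀ w : I → K, ∑ i, c (b i) * m (w i) = 0 → ∀ i, w i = 0)
    (hsurj : ∀ y, ∃ w : I → K, ∑ i, c (b i) * m (w i) = y) (t1 : ∀ a, τ (c a) = c a)
    (t2 : ∀ w, τ (m w) = m (w ^ Fintype.card F)) :
    ∃ ι : B →+* E ⊗[F] L, (∀ a w, ι (c a * m w) = a ⊗ₜ algebraMap K L w) ∧
      ∀ u, ι (τ u) = tauR E (ι u) := by
  let : Algebra F B := (c.comp (algebraMap F E)).toAlgebra
  let j : E ⊗[F] K →ₐ[F] B := Algebra.TensorProduct.lift ⟨c, fun _ => rfl⟩
    ⟨m, fun x => (hcm x).symm⟩ fun _ _ => Commute.all _ _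
  have j0 : ∀ a w, j (a ⊗ₜ w) = c a * m w := fun a w => rfl
  have j1 : Function.Bijective j := by
    refine ⟨(injective_iff_map_eq_zero j).2 fun x hx => ?_, fun y => ?_⟩
    · obtain ⟨w, rfl⟩ := TensorProduct.eq_repr_basis_left b x
      rw [Finsupp.sum_fintype _ _ fun i => tmul_zero _ _] at hx ⊢
      rw [map_sum] at hx
      exact Finset.sum_eq_zero fun i _ => by rw [hinj w hx i, tmul_zero]
    · obtain ⟨w, rfl⟩ := hsurj y
      exact ⟨∑ i, b i ⊗ₜ w i, map_sum _ _ _⟩
  let e := RingEquiv.ofBijective j j1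
  let ι : B →+* E ⊗[F] L := (Algebra.TensorProduct.map (AlgHom.id F E)
    (IsScalarTower.toAlgHom F K L)).toRingHom.comp e.symm.toRingHom
  have i0 : ∀ a w, ι (c a * m w) = a ⊗ₜ algebraMap K L w := fun a w => by
    have : e.symm (c a * m w) = a ⊗ₜ w := e.symm_apply_eq.2 (j0 a w).symm
    change Algebra.TensorProduct.map _ _ (e.symm _) = _
    rw [this]
    rfl
  refine ⟨ι, i0, fun u => ?_⟩
  obtain ⟨w, rfl⟩ := hsurj u
  simp only [map_sum]
  exact Finset.sum_congr rfl fun i _ => by
    rw [map_mul τ, t1, t2, i0, i0, tauR_tmul, map_pow]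

/-- Extension of the coefficient field. -/
noncomputable def mapS (F E : Type) [Field F] [Field E] [Algebra F E] :
    LaurentSeries F →+* LaurentSeries E where
  toFun w := w.map (algebraMap F E)
  map_one' := HahnSeries.map_one (algebraMap F E).toMonoidWithZeroHom
  map_mul' _ _ := HahnSeries.map_mul (algebraMap F E).toNonUnitalRingHom
  map_zero' := by ext; simp
  map_add' _ _ := by ext; simp

omit [Fintype F] [Fintype E] in
theorem mapS_coeff (w : LaurentSeries F) (n : ℤ) :
    (mapS F E w).coeff n = algebraMap F E (w.coeff n) := rfl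

omit [Fintype F] [Fintype E] in
theorem mapS_single (n : ℤ) (a : F) :
    mapS F E (HahnSeries.single n a) = HahnSeries.single n (algebraMap F E a) :=
  HahnSeries.map_single (algebraMap F E).toZeroHom

theorem iota_ser [Module.Finite F E] {L : Type} [CommRing L] [Algebra F L]
    [Algebra (LaurentSeries F) L]
    (hL : ∀ x, algebraMap F L x = algebraMap (LaurentSeries F) L (algebraMap F _ x)) :
    ∃ ι : LaurentSeries E →+* E ⊗[F] L,
      (∀ a w, ι (HahnSeries.C a * mapS F E w) = a ⊗ₜ algebraMap _ L w) ∧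
      ∀ u, ι (tauS E (Fintype.card_ne_zero (α := F)) u) = tauR E (ι u) := by
  have hs := IsScalarTower.of_algebraMap_eq hL
  have h : ∀ (w : _ → LaurentSeries F) n, (∑ i, HahnSeries.C (Module.finBasis F E i) *
      mapS F E (w i)).coeff n = ∑ i, (w i).coeff n • Module.finBasis F E i := fun w n => by
    rw [HahnSeries.coeff_sum]
    exact Finset.sum_congr rfl fun i _ => by
      rw [HahnSeries.C_mul_eq_smul, HahnSeries.coeff_smul, mapS_coeff, smul_eq_mul, mul_comm,
        Algebra.smul_def]
  refine @exists_iota F _ _ E _ _ _ (LaurentSeries F) (LaurentSeries E) L _ _ _ _ _ _ _ hs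
    HahnSeries.C (mapS F E) (tauS E (Fintype.card_ne_zero (α := F))) (fun x => ?_) _
    (Module.finBasis F E) (fun w hw i => ?_)
    (fun y => ⟨fun i => y.map ((Module.finBasis F E).coord i), ?_⟩)
    (tauS_C _) fun w => ?_
  · rw [LaurentSeries.algebraMap_apply, HahnSeries.C_apply, HahnSeries.C_apply, mapS_single]
  · ext n
    have h1 := h w n
    rw [hw] at h1
    exact Fintype.linearIndependent_iff.1 (Module.finBasis F E).linearIndependent _ h1.symm i
  · ext n
    rw [h]
    exact (Module.finBasis F E).sum_repr _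
  · ext n
    have h1 := Carl.frob_coeff 1 w n
    rw [pow_one] at h1
    rw [tauS_coeff, mapS_coeff, mapS_coeff, h1]
    split_ifs <;> simp

end Pool.Agent.K12
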