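import Pool.Agent.Lib.MP_091276_al.Iota
import Pool.Agent.Lib.MP_091276_al.Gal

/-! Vanishing of an eigenspace from the determinant. -/

namespace Pool.Agent.K12

open Polynomial TensorProduct

variable {F : Type} [Field F] [Fintype F] {E : Type} [Field E] [Fintype E] [Algebra F E]

theorem eigen_gen {K B : Type} [Field K] [Algebra F K] [Field B] {t : K} {P : F[X]}
    (ht : aeval t P ≠ 0) {z : E} (hk : ∀ a : F[X], aeval z a = 0 ↔ P ∣ a) (s : E →ₗ[F] F[X])
    (hs : ∀ b, aeval z (s b) = b) (hc : Fintype.card E = Fintype.card F ^ P.natDegree)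
    (ev : E[X] →+* B) (τ : B →+* B) (m : K →+* B) (e1 : ev X = m t) (e2 : ∀ a, ev (C a - X) ≠ 0)
    (hι : ∀ (L : Type) [CommRing L] [Algebra F L] [Algebra K L],
      (∀ x, algebraMap F L x = algebraMap K L (algebraMap F K x)) → ∃ ι : B →+* E ⊗[F] L,
      (∀ a w, ι (ev (C a) * m w) = a ⊗ₜ algebraMap K L w) ∧ ∀ u, ι (τ u) = tauR E (ι u))
    (c : ℕ → ℕ) (n : ℕ) (hm : ∀ b : E, b ≠ 0 →
      b ^ (∑ i ∈ Finset.range P.natDegree, Fintype.card F ^ i * c i) * b ^ (n - 1) = 1)
    (hS : Surj ev τ z (beta (Fintype.card F) z c P.natDegree)) : EigenZero t P n := by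
  intro x hx
  rcases subsingleton_or_nontrivial (Linf t P) with h | h
  · exact ⟨0, zero_mem _, 0, Subsingleton.elim _ _⟩
  obtain ⟨χ, σ, h0, -, h1, h2, h3, h4, h5, h6⟩ := exists_setup ht hk s hs hc
  obtain ⟨ι, i1, i2⟩ := hι (Linf t P) (IsScalarTower.algebraMap_apply F K _)
  have hT : TL t P ∈ Algebra.adjoin F {TL t P, lam t P} := Algebra.subset_adjoin (by simp)
  refine reduce (fun a => (hk a).1) s hs hc χ (fun b => (σ b).restrictScalars F) h1 h2 h4 h5
    ev τ ι (fun a => ?_) ?_ i2 e2 (fun a x hx => ?_) _ hT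
    (fun b => h0 b ▸ carl_mem _ hT (Algebra.subset_adjoin (by simp)) _) c (n - 1) hm hS x
    fun b => hx (s b) (σ b) (fun h => b.ne_zero (by rw [← hs b, (hk _).2 h])) (by rw [h3, h0])
  · have := i1 a 1
    rwa [map_one, mul_one, map_one] at this
  · have := i1 1 t
    rwa [map_one, map_one, one_mul, ← e1] at this
  · obtain ⟨w, rfl⟩ := h6 x hx
    exact ⟨_, i1 a w⟩

theorem conj_ne {z : E} (s : E → F[X]) (hs : ∀ b, aeval z (s b) = b) {d : ℕ}
    (hc : Fintype.card E = Fintype.card F ^ d) (i j : ℕ) (hij : i < j) (hj : j < d) :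
    z ^ Fintype.card F ^ i ≠ z ^ Fintype.card F ^ j := by
  intro h
  have hd : Module.finrank F E = d := Nat.pow_right_injective Fintype.one_lt_card
    ((Module.card_eq_pow_finrank (K := F) (V := E)).symm.trans hc)
  have h1 : ∀ i, (FiniteField.frobeniusAlgHom F E ^ i) z = z ^ Fintype.card F ^ i := fun i => by
    rw [AlgHom.coe_pow, FiniteField.coe_frobeniusAlgHom, pow_iterate]
  have h2 := (FiniteField.bijective_frobeniusAlgHom_pow F E).1 (a₁ := ⟨i, by omega⟩)
    (a₂ := ⟨j, by omega⟩) (AlgHom.ext fun b => by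
      rw [← hs b, ← aeval_algHom_apply, ← aeval_algHom_apply, h1, h1, h])
  exact hij.ne (congrArg Fin.val h2)

theorem eigen_of_det {P : F[X]} (hm : P.Monic) (hi : Irreducible P) (c : ℕ → ℕ) {k r n n' : ℕ}
    (hk : k ≤ P.natDegree) (hc : ∀ i, k ≤ i → c i = Fintype.card F - 1) (hn : 1 ≤ n')
    (hN : ∑ i ∈ Finset.range k, Fintype.card F ^ i * c i + n' = Fintype.card F ^ k)
    (hmod : n - 1 ≡ n' - 1 [MOD Fintype.card F ^ P.natDegree - 1])
    (hr : ∑ i ∈ Finset.range k, c i + (r + 2) ≤ Fintype.card F * (r + 2))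
    (hD : ¬ P ∣ (-Mx (Fintype.card F) r (X ^ Fintype.card F ^ k)
      (beta (Fintype.card F) X c k)).det) : EigenZero (T F) P n := by
  have := Fact.mk hi
  have := (AdjoinRoot.powerBasis' hm).finite
  have : Finite (AdjoinRoot P) := Module.finite_of_finite F
  have := Fintype.ofFinite (AdjoinRoot P)
  have hq : Fintype.card F ≠ 0 := Fintype.card_ne_zero
  have hcard : Fintype.card (AdjoinRoot P) = Fintype.card F ^ P.natDegree := by
    rw [Module.card_eq_pow_finrank (K := F), (AdjoinRoot.powerBasis' hm).finrank]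
    rfl
  have hker : ∀ a : F[X], aeval (AdjoinRoot.root P) a = 0 ↔ P ∣ a := fun a => by
    rw [AdjoinRoot.aeval_eq, AdjoinRoot.mk_eq_zero]
  have hs : ∀ b, aeval (AdjoinRoot.root P) (AdjoinRoot.modByMonicHom hm b) = b := fun b => by
    rw [AdjoinRoot.aeval_eq]
    exact AdjoinRoot.mk_leftInverse hm b
  have hne : ∀ a : AdjoinRoot P, evT _ (C a - X) ≠ 0 := fun a =>
    evT_ne fun h => X_sub_C_ne_zero a (by rw [← neg_sub, h, neg_zero])
  have hsum : ∀ j, k ≤ j →
      ∑ i ∈ Finset.range j, Fintype.card F ^ i * c i + n' = Fintype.card F ^ j := by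
    intro j hj
    induction j, hj using Nat.le_induction with
    | base => exact hN
    | succ j hj ih =>
      rw [Finset.sum_range_succ, add_right_comm, ih, hc j hj, ← mul_one_add, pow_succ]
      congr 1
      omega
  refine eigen_gen ?_ hker _ hs hcard (evT _) (tauS _ hq) (mapS F _) ?_ hne
    (fun L _ _ _ hL => ?_) c n (fun b hb => ?_) ?_
  · rw [aeval_def, RingHom.ext (LaurentSeries.algebraMap_apply F)]
    exact evT_ne hm.ne_zero
  · rw [evT_X, T, T, mapS_single, map_one (algebraMap F _)]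
  · simp only [evT_C]
    exact iota_ser hL
  · have h1 := FiniteField.pow_card_sub_one_eq_one b hb
    rw [hcard] at h1
    rw [pow_eq_pow_of_modEq hmod h1, ← pow_add, ← h1, ← hsum _ hk, Nat.add_sub_assoc hn]
  · have h1 := twist_iter (ev := evT _) (τ := tauS _ hq) hq (fun a => by rw [evT_C, tauS_C]) hne
      (fun a => by
        have h2 := map_sub (FiniteField.frobeniusAlgHom F (AdjoinRoot P)[X]) (C a) X
        simp only [FiniteField.coe_frobeniusAlgHom] at h2
        rw [← map_pow (evT _), h2, map_sub, map_sub, map_sub, evT_C, tauS_C, ← map_pow C, evT_C,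
          map_pow (evT _), evT_X, T, tauS_single, HahnSeries.single_pow]
        simp) hk hc (conj_ne _ hs hcard) (surj_base hq (beta_deg _ _ _ _) hr fun h => hD (by
          rw [← hker, ← RingHom.coe_coe, RingHom.map_det, map_neg, Mx_map, beta_map,
            Matrix.det_neg, RingHom.coe_coe, map_pow, aeval_X, h, mul_zero]))
    rwa [← hcard, FiniteField.pow_card] at h1

end Pool.Agent.K12
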