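import Pool.Agent.Lib.MP_091276_al.Gau

/-! Reduction of an eigenspace to a twisted operator on one field. -/

namespace Pool.Agent.K12

open Polynomial TensorProduct

set_option linter.unusedSectionVars false

/-- `B = E[T] + ((T - z) + β τ) B`. -/
def Surj {E B : Type} [Field E] [Field B] (ev : E[X] →+* B) (τ : B →+* B) (z : E) (β : E[X]) :
    Prop := ∀ y : B, ∃ (p : E[X]) (u : B), y = ev p + (ev (X - C z) * u + ev β * τ u)

variable {F : Type} [Field F] [Fintype F] {L : Type} [CommRing L] [Algebra F L]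
  {E : Type} [Field E] [Fintype E] [Algebra F E]

theorem exists_mu {t : L} {P : F[X]} {z : E} (hk : ∀ a : F[X], aeval z a = 0 → P ∣ a)
    (s : E →ₗ[F] F[X]) (hs : ∀ b, aeval z (s b) = b) (O : Subalgebra F L) (ht : t ∈ O)
    (M : Submodule F L) (h1 : ∀ o ∈ O, o ∈ M) (h2 : ∀ y, carl F t P y ∈ M) :
    ∃ μ : E ⊗[F] L →ₗ[F] L ⧸ M, (∀ a y, μ (aeval z a ⊗ₜ y) = M.mkQ (carl F t a y)) ∧
      (∀ r ∈ (Algebra.TensorProduct.map (AlgHom.id E E) O.val).range, μ r = 0) ∧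
      ∀ r, μ (1 ⊗ₜ t * r + tauR E r - algebraMap E _ z * r) = 0 := by
  let μ : E ⊗[F] L →ₗ[F] L ⧸ M :=
    TensorProduct.lift (((carl F t).toLinearMap ∘ₗ s).compr₂ M.mkQ)
  have h0 : ∀ a y, μ (a ⊗ₜ y) = M.mkQ (carl F t (s a) y) := fun a y => rfl
  have h3 : ∀ a y, μ (aeval z a ⊗ₜ y) = M.mkQ (carl F t a y) := by
    intro a y
    obtain ⟨c, hc⟩ := hk (s (aeval z a) - a) (by rw [map_sub, hs, sub_self])
    rw [h0, Submodule.mkQ_apply, Submodule.mkQ_apply, Submodule.Quotient.eq, ← carl_sub, hc,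
      carl_mul]
    exact h2 _
  refine ⟨μ, h3, ?_, fun r => ?_⟩
  · rintro _ ⟨r, rfl⟩
    induction r with
    | zero => simp
    | add a b ha hb =>
      simp only [AlgHom.toRingHom_eq_coe, RingHom.coe_coe] at ha hb ⊢
      rw [map_add, map_add, ha, hb, add_zero]
    | tmul a o => exact (Submodule.Quotient.mk_eq_zero M).2 (h1 _ (carl_mem O ht o.2 _))
  · induction r with
    | zero => simp
    | add a b ha hb =>
      have : 1 ⊗ₜ t * (a + b) + tauR E (a + b) - algebraMap E _ z * (a + b) =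
        (1 ⊗ₜ t * a + tauR E a - algebraMap E _ z * a) +
          (1 ⊗ₜ t * b + tauR E b - algebraMap E _ z * b) := by rw [map_add]; ring
      rw [this, map_add, ha, hb, add_zero]
    | tmul a y =>
      have h4 := h3 (s a * X) y
      rw [map_mul, hs, aeval_X, carl_mul, carl_X] at h4
      rw [tauR_tmul, Algebra.TensorProduct.tmul_mul_tmul, one_mul, ← tmul_add, alg_mul, map_sub,
        mul_comm z, h4, h0, sub_self]

theorem up_up (σ : Eˣ → L →ₐ[F] L) (h4 : ∀ c b x, σ c (σ b x) = σ (c * b) x) (c b : Eˣ)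
    (r : E ⊗[F] L) : up E (σ c) (up E (σ b) r) = up E (σ (c * b)) r := by
  induction r with
  | zero => simp
  | add a b ha hb => simp only [map_add, ha, hb]
  | tmul a y => rw [up_tmul, up_tmul, up_tmul, h4]

theorem up_proj [DecidableEq E] (σ : Eˣ → L →ₐ[F] L) (h4 : ∀ c b x, σ c (σ b x) = σ (c * b) x)
    {N m : ℕ} (hm : ∀ b : E, b ≠ 0 → b ^ N * b ^ m = 1) (r : E ⊗[F] L) (a : Eˣ) :
    up E (σ a) (∑ b : Eˣ, algebraMap E _ (b ^ m) * up E (σ b) r) =
      algebraMap E _ (a ^ N) * ∑ b : Eˣ, algebraMap E _ (b ^ m) * up E (σ b) r := by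
  rw [map_sum, Finset.mul_sum]
  refine Fintype.sum_equiv (Equiv.mulLeft a) _ _ fun b => ?_
  rw [map_mul, AlgHom.commutes, up_up σ h4, Equiv.coe_mulLeft, ← mul_assoc, ← map_mul,
    Units.val_mul, mul_pow, ← mul_assoc, hm _ a.ne_zero, one_mul]

theorem ev_mem {t : L} {B : Type} [Field B] (ev : E[X] →+* B) (ι : B →+* E ⊗[F] L)
    (i1 : ∀ a, ι (ev (C a)) = algebraMap E _ a) (i2 : ι (ev X) = 1 ⊗ₜ t) (O : Subalgebra F L)
    (ht : t ∈ O) (p : E[X]) :
    ι (ev p) ∈ (Algebra.TensorProduct.map (AlgHom.id E E) O.val).range := by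
  induction p using Polynomial.induction_on with
  | C a => rw [i1]; exact Subalgebra.algebraMap_mem _ a
  | add a b ha hb => rw [map_add, map_add]; exact add_mem ha hb
  | monomial n a h =>
    rw [pow_succ, ← mul_assoc, map_mul, map_mul, i2]
    exact mul_mem h ⟨1 ⊗ₜ ⟨t, ht⟩, rfl⟩

theorem exists_g [Nontrivial L] {t : L} {z : E} {d : ℕ}
    (hc : Fintype.card E = Fintype.card F ^ d) (χ : E →ₗ[F] L) (σ : Eˣ → L →ₐ[F] L)
    (h1 : ∀ a b, carl F t a (χ b) = χ (aeval z a * b)) (h2 : ∀ b, b ≠ 0 → IsUnit (χ b))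
    (h3 : ∀ c b, σ c (χ b) = χ (c * b)) (h4 : ∀ c b x, σ c (σ b x) = σ (c * b) x)
    {B : Type} [Field B] (ev : E[X] →+* B) (ι : B →+* E ⊗[F] L)
    (i1 : ∀ a, ι (ev (C a)) = algebraMap E _ a) (i2 : ι (ev X) = 1 ⊗ₜ t)
    (i4 : ∀ a, ev (C a - X) ≠ 0) (i5 : ∀ a x, (∀ c, σ c x = x) → a ⊗ₜ x ∈ ι.range)
    (O : Subalgebra F L) (hO : ∀ b, χ b ∈ O) (c : ℕ → ℕ) :
    ∃ g : E ⊗[F] L, IsUnit g ∧ g ∈ (Algebra.TensorProduct.map (AlgHom.id E E) O.val).range ∧
      (∀ b : Eˣ, up E (σ b) g =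
        algebraMap E _ (b ^ ∑ i ∈ Finset.range d, Fintype.card F ^ i * c i) * g) ∧
      tauR E g = ι (ev (beta (Fintype.card F) z c d)) * g ∧
      (∀ w, (∀ b : Eˣ, up E (σ b) w =
        algebraMap E _ (b ^ ∑ i ∈ Finset.range d, Fintype.card F ^ i * c i) * w) →
        ∃ y, w = g * ι y) ∧
      ((∀ i < d, c i ≤ Fintype.card F - 1) →
        ∃ g' ∈ (Algebra.TensorProduct.map (AlgHom.id E E) O.val).range,
          g * g' = ι (ev (beta (Fintype.card F) z (fun _ => 1) d))) := by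
  classical
  set RO := (Algebra.TensorProduct.map (AlgHom.id E E) O.val).range
  have hinv : ∀ r, (∀ c, up E (σ c) r = r) → r ∈ ι.range := by
    intro r hr
    have h5 : ∀ r, ∑ b, up E (σ b) r ∈ ι.range := by
      intro r
      induction r with
      | zero => simp
      | add a b ha hb => simp only [map_add, Finset.sum_add_distrib]; exact add_mem ha hb
      | tmul a y =>
        simp only [up_tmul, ← tmul_sum]
        refine i5 _ _ fun c => ?_
        rw [map_sum]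
        exact Fintype.sum_equiv (Equiv.mulLeft c) _ _ fun b => h4 c b y
    have h6 := h5 r
    rw [Finset.sum_congr rfl fun b _ => hr b, sum_units_const (F := F)] at h6
    exact neg_mem_iff.1 h6
  have hq : ∀ i, Fintype.card F ^ i ≠ 0 := fun i => pow_ne_zero _ Fintype.card_ne_zero
  have hev : ∀ a, ι (ev (C a - X)) = algebraMap E _ a - 1 ⊗ₜ t := fun a => by
    rw [map_sub, map_sub, i1, i2]
  have hG := G_unit χ h2 h1 hc (fun a => hev a ▸ (IsUnit.mk0 _ (i4 a)).map ι) (fun h0 => by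
    obtain ⟨y, hy⟩ := hinv (G χ 1 ^ (Fintype.card E - 1)) fun c => by
      rw [map_pow, G_sig χ one_ne_zero (h3 c), mul_pow, ← map_pow, pow_one,
        FiniteField.pow_card_sub_one_eq_one _ c.ne_zero, map_one, one_mul]
    rw [← hy] at h0 ⊢
    exact (IsUnit.mk0 y fun e => h0 (by rw [e, map_zero])).map ι)
  have g1 : ∀ c : ℕ → ℕ, IsUnit (∏ i ∈ Finset.range d, G χ (Fintype.card F ^ i) ^ c i) :=
    fun c => IsUnit.prod_iff.2 fun i _ => (hG i).pow _
  have g2 : ∀ c : ℕ → ℕ, ∏ i ∈ Finset.range d, G χ (Fintype.card F ^ i) ^ c i ∈ RO :=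
    fun c => prod_mem fun i _ => pow_mem (sum_mem fun b _ => by
      exact ⟨_ ⊗ₜ (⟨_, hO b⟩ : O), rfl⟩) _
  have g3 : ∀ b : Eˣ, up E (σ b) (∏ i ∈ Finset.range d, G χ (Fintype.card F ^ i) ^ c i) =
      algebraMap E _ (b ^ ∑ i ∈ Finset.range d, Fintype.card F ^ i * c i) *
        ∏ i ∈ Finset.range d, G χ (Fintype.card F ^ i) ^ c i := fun b => by
    rw [map_prod, ← Finset.prod_pow_eq_pow_sum, map_prod, ← Finset.prod_mul_distrib]
    exact Finset.prod_congr rfl fun i _ => by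
      rw [map_pow, G_sig χ (hq i) (h3 b), mul_pow, pow_mul, map_pow _ _ (c i)]
  have g4 : ∀ c : ℕ → ℕ, tauR E (∏ i ∈ Finset.range d, G χ (Fintype.card F ^ i) ^ c i) =
      ι (ev (beta (Fintype.card F) z c d)) *
        ∏ i ∈ Finset.range d, G χ (Fintype.card F ^ i) ^ c i := fun c => by
    rw [beta, map_prod, map_prod, map_prod, ← Finset.prod_mul_distrib]
    exact Finset.prod_congr rfl fun i _ => by
      rw [map_pow, G_tau χ (hq i) h1, mul_pow, map_pow ev, map_pow ι, hev]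
  refine ⟨_, g1 c, g2 c, g3, g4 c, fun w w2 => ?_,
    fun hle => ⟨_, g2 fun i => Fintype.card F - 1 - c i, ?_⟩⟩
  · obtain ⟨y, hy⟩ := (g1 c).dvd (a := w)
    obtain ⟨y, rfl⟩ := hinv y fun a => by
      have h5 := w2 a
      rw [hy, map_mul, g3, mul_assoc] at h5
      exact (g1 c).mul_left_cancel
        (((IsUnit.mk0 _ (pow_ne_zero _ a.ne_zero)).map (algebraMap E _)).mul_left_cancel h5)
    exact ⟨y, hy⟩
  · have h5 := (Finset.prod_range_succ (fun i => G χ (Fintype.card F ^ i)) d).symm.trans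
      (Finset.prod_range_succ' _ d)
    rw [← hc, G_card, pow_zero] at h5
    have h6 := congrArg (tauR E) ((by simpa using hG 0 : IsUnit (G χ 1)).mul_right_cancel h5)
    have h7 := g4 fun _ => 1
    simp only [pow_one] at h7
    have h8 : ∀ i, tauR E (G χ (Fintype.card F ^ (i + 1))) =
        G χ (Fintype.card F ^ i) ^ Fintype.card F := fun i => by rw [G_pow, pow_succ]
    rw [h7, map_prod, Finset.prod_congr rfl fun i _ => h8 i] at h6
    refine (g1 fun _ => 1).mul_right_cancel ?_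
    simp only [pow_one]
    rw [h6, ← Finset.prod_mul_distrib, ← Finset.prod_mul_distrib]
    refine Finset.prod_congr rfl fun i hi => ?_
    have := hle i (Finset.mem_range.1 hi)
    have : 0 < Fintype.card F := Fintype.card_pos
    rw [← pow_add, ← pow_succ, show c i + (Fintype.card F - 1 - c i) + 1 = Fintype.card F by omega]

theorem reduce [Nontrivial L] {t : L} {P : F[X]} {z : E}
    (hk : ∀ a : F[X], aeval z a = 0 → P ∣ a)
    (s : E →ₗ[F] F[X]) (hs : ∀ b, aeval z (s b) = b) {d : ℕ}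
    (hc : Fintype.card E = Fintype.card F ^ d) (χ : E →ₗ[F] L) (σ : Eˣ → L →ₐ[F] L)
    (h1 : ∀ a b, carl F t a (χ b) = χ (aeval z a * b)) (h2 : ∀ b, b ≠ 0 → IsUnit (χ b))
    (h3 : ∀ c b, σ c (χ b) = χ (c * b)) (h4 : ∀ c b x, σ c (σ b x) = σ (c * b) x)
    {B : Type} [Field B] (ev : E[X] →+* B) (τ : B →+* B) (ι : B →+* E ⊗[F] L)
    (i1 : ∀ a, ι (ev (C a)) = algebraMap E _ a) (i2 : ι (ev X) = 1 ⊗ₜ t)
    (i3 : ∀ u, ι (τ u) = tauR E (ι u)) (i4 : ∀ a, ev (C a - X) ≠ 0)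
    (i5 : ∀ a x, (∀ c, σ c x = x) → a ⊗ₜ x ∈ ι.range)
    (O : Subalgebra F L) (ht : t ∈ O) (hO : ∀ b, χ b ∈ O) (c : ℕ → ℕ) (m : ℕ)
    (hm : ∀ b : E, b ≠ 0 → b ^ (∑ i ∈ Finset.range d, Fintype.card F ^ i * c i) * b ^ m = 1)
    (hS : Surj ev τ z (beta (Fintype.card F) z c d)) (x : L)
    (hx : ∀ b : Eˣ, ∃ o ∈ O, ∃ y, carl F t (s b ^ m) (σ b x) - x = o + carl F t P y) :
    ∃ o ∈ O, ∃ y, x = o + carl F t P y := by
  classical
  let M : Submodule F L := O.toSubmodule ⊔ LinearMap.range (carl F t P)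
  have hM : ∀ v, v ∈ M ↔ ∃ o ∈ O, ∃ y, v = o + carl F t P y := fun v =>
    Submodule.mem_sup.trans ⟨fun ⟨o, ho, _, ⟨y, rfl⟩, h⟩ => ⟨o, ho, y, h.symm⟩,
      fun ⟨o, ho, y, h⟩ => ⟨o, ho, _, ⟨y, rfl⟩, h.symm⟩⟩
  obtain ⟨μ, m1, m2, m3⟩ := exists_mu hk s hs O ht M
    (fun o ho => (hM o).2 ⟨o, ho, 0, by simp⟩) fun y => (hM _).2 ⟨0, O.zero_mem, y, by simp⟩
  obtain ⟨g, -, g2, -, g4, g5, -⟩ := exists_g hc χ σ h1 h2 h3 h4 ev ι i1 i2 i4 i5 O hO c
  let w : E ⊗[F] L := ∑ b : Eˣ, algebraMap E _ (b ^ m) * up E (σ b) (1 ⊗ₜ x)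
  have w1 : μ w = -M.mkQ x := by
    rw [map_sum, ← sum_units_const (F := F) (E := E)]
    refine Finset.sum_congr rfl fun b _ => ?_
    have h5 := m1 (s b ^ m) (σ b x)
    rw [map_pow, hs] at h5
    rw [up_tmul, alg_mul, mul_one, h5, Submodule.mkQ_apply, Submodule.mkQ_apply,
      Submodule.Quotient.eq]
    exact (hM _).2 (hx b)
  obtain ⟨y, hy⟩ := g5 w (up_proj σ h4 hm _)
  obtain ⟨p, u, rfl⟩ := hS y
  have w3 : w = g * ι (ev p) + (1 ⊗ₜ t * (g * ι u) + tauR E (g * ι u) -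
      algebraMap E _ z * (g * ι u)) := by
    rw [hy, map_mul (tauR E), g4, map_add, map_add, map_mul, map_mul, i3, map_sub, map_sub, i1, i2]
    ring
  rw [w3, map_add, m2 _ (mul_mem g2 (ev_mem ev ι i1 i2 O ht p)), m3, add_zero, eq_comm,
    neg_eq_zero] at w1
  exact (hM x).1 ((Submodule.Quotient.mk_eq_zero M).1 w1)

end Pool.Agent.K12
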