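import Pool.Agent.Lib.MP_091276_al.Red

/-! The twisted operator on Laurent series: contraction, finite part and Frobenius twist. -/

namespace Pool.Agent.K12

open Polynomial

theorem twist {E B : Type} [Field E] [Field B] {ev : E[X] →+* B} {τ : B →+* B} {q : ℕ}
    (hq : q ≠ 0) (h1 : ∀ a, τ (ev (C a)) = ev (C a)) (hne : ∀ a, ev (C a - X) ≠ 0) {z : E}
    (h2 : τ (ev (C (z ^ q) - X)) = ev (C z - X) ^ q) {β : E[X]} (hβ : β.eval z ≠ 0)
    (hS : Surj ev τ z β) : Surj ev τ (z ^ q) (β * (C z - X) ^ (q - 1)) := by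
  intro y
  obtain ⟨p, u, h⟩ := hS (ev (C z - X) * y)
  obtain ⟨p', hp⟩ : X - C z ∣ p - C (p.eval z / β.eval z) * (X - C z + β) :=
    dvd_iff_isRoot.2 (by simp [IsRoot, hβ])
  obtain ⟨v, hv⟩ : ∃ v, u + ev (C (p.eval z / β.eval z)) = ev (C (z ^ q) - X) * v :=
    ⟨_, (mul_div_cancel₀ _ (hne _)).symm⟩
  have h3 := congrArg τ hv
  have h4 := congrArg ev hp
  rw [map_add, h1, map_mul, h2, ← pow_sub_one_mul hq (ev (C z - X))] at h3
  refine ⟨-p', v, mul_left_cancel₀ (hne z) ?_⟩
  rw [h, map_mul, map_pow ev (C z - X)]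
  simp only [map_sub, map_mul, map_add, map_neg] at h3 h4 hv ⊢
  linear_combination h4 + (ev X - ev (C z)) * hv + ev β * h3

theorem twist_iter {E B : Type} [Field E] [Field B] {ev : E[X] →+* B} {τ : B →+* B} {q : ℕ}
    (hq : q ≠ 0) (h1 : ∀ a, τ (ev (C a)) = ev (C a)) (hne : ∀ a, ev (C a - X) ≠ 0)
    (h2 : ∀ z, τ (ev (C (z ^ q) - X)) = ev (C z - X) ^ q) {z : E} {c : ℕ → ℕ} {k d : ℕ}
    (hkd : k ≤ d) (hc : ∀ i, k ≤ i → c i = q - 1)
    (hz : ∀ i j, i < j → j < d → z ^ q ^ i ≠ z ^ q ^ j)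
    (hS : Surj ev τ (z ^ q ^ k) (beta q z c k)) : Surj ev τ (z ^ q ^ d) (beta q z c d) := by
  induction d, hkd using Nat.le_induction with
  | base => exact hS
  | succ j hj ih =>
    have := twist hq h1 hne (h2 _) (β := beta q z c j) (by
      rw [beta, eval_prod]
      refine Finset.prod_ne_zero_iff.2 fun i hi => ?_
      rw [eval_pow, eval_sub, eval_C, eval_X]
      exact pow_ne_zero _ (sub_ne_zero.2 (hz i j (Finset.mem_range.1 hi) j.lt_succ_self)))
      (ih fun a b h1 h2 => hz a b h1 (h2.trans j.lt_succ_self))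
    rwa [beta, ← hc j hj, ← Finset.prod_range_succ (fun i => (C (z ^ q ^ i) - X) ^ c i),
      ← pow_mul, ← pow_succ] at this

variable {E : Type} [Field E]

/-- All coefficients below `j` vanish. -/
def Ge (j : ℤ) (u : LaurentSeries E) : Prop := ∀ n < j, u.coeff n = 0

theorem Ge.mono {i j : ℤ} {u : LaurentSeries E} (h : Ge j u) (hij : i ≤ j) : Ge i u :=
  fun n hn => h n (hn.trans_le hij)

theorem Ge.add {j : ℤ} {u v : LaurentSeries E} (h : Ge j u) (h' : Ge j v) : Ge j (u + v) :=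
  fun n hn => by rw [HahnSeries.coeff_add, h n hn, h' n hn, add_zero]

theorem Ge.neg {j : ℤ} {u : LaurentSeries E} (h : Ge j u) : Ge j (-u) :=
  fun n hn => by rw [HahnSeries.coeff_neg, h n hn, neg_zero]

theorem contract (Ψ : LaurentSeries E →+ LaurentSeries E) (J : ℤ)
    (h : ∀ j, J ≤ j → ∀ u, Ge j u → Ge (j + 1) (Ψ u)) (y : LaurentSeries E) (hy : Ge J y) :
    ∃ u, u + Ψ u = y := by
  let a : ℕ → LaurentSeries E := fun m => (fun v => -Ψ v)^[m] y
  have a1 : ∀ m, a (m + 1) = -Ψ (a m) := fun m => Function.iterate_succ_apply' _ _ _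
  have a2 : ∀ m : ℕ, Ge (J + m) (a m) := by
    intro m
    induction m with
    | zero => simpa [a] using hy
    | succ m ih =>
      rw [a1, Nat.cast_succ, ← add_assoc]
      exact (h _ (by omega) _ ih).neg
  let u : LaurentSeries E := HahnSeries.ofSuppBddBelow
    (fun n => ∑ m ∈ Finset.range (n - J + 1).toNat, (a m).coeff n) ⟨J, fun n hn => by
      by_contra h0
      exact hn (by simp only [show (n - J + 1).toNat = 0 by omega]; rfl)⟩
  have a3 : ∀ M : ℕ, Ge (J + M) (u - ∑ m ∈ Finset.range M, a m) := by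
    intro M n hn
    rw [HahnSeries.coeff_sub, HahnSeries.coeff_sum, sub_eq_zero]
    exact Finset.sum_subset (Finset.range_mono (by omega)) fun m _ hm =>
      a2 m n (by have := Finset.mem_range.not.1 hm; omega)
  have a4 : ∀ M, ∑ m ∈ Finset.range M, a m + Ψ (∑ m ∈ Finset.range M, a m) = y - a M := by
    intro M
    induction M with
    | zero => simp [a]
    | succ M ih => rw [Finset.sum_range_succ, map_add, a1, add_add_add_comm, ih]; abel
  refine ⟨u, sub_eq_zero.1 ?_⟩
  ext n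
  obtain ⟨M, hM⟩ : ∃ M : ℕ, n < J + M := ⟨(n - J + 1).toNat, by omega⟩
  have e : u + Ψ u - y = (u - ∑ m ∈ Finset.range M, a m) +
      Ψ (u - ∑ m ∈ Finset.range M, a m) + -a M := by
    rw [map_sub]; linear_combination a4 M
  rw [e]
  exact ((a3 M).add ((h _ (by omega) _ (a3 M)).mono (by omega))).add (a2 M).neg n hM

/-- Evaluation at `T`. -/
noncomputable def evT (E : Type) [Field E] : E[X] →+* LaurentSeries E :=
  eval₂RingHom HahnSeries.C (T E)

theorem evT_C (a : E) : evT E (C a) = HahnSeries.C a := eval₂_C _ _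

theorem evT_X : evT E X = T E := eval₂_X _ _

theorem evT_mul_coeff (p : E[X]) (u : LaurentSeries E) (n : ℤ) :
    (evT E p * u).coeff n = ∑ j ∈ Finset.range (p.natDegree + 1), p.coeff j * u.coeff (n + j) := by
  conv_lhs => rw [p.as_sum_range_C_mul_X_pow, map_sum, Finset.sum_mul, HahnSeries.coeff_sum]
  refine Finset.sum_congr rfl fun j _ => ?_
  have := HahnSeries.coeff_single_mul_add (r := p.coeff j) (x := u) (a := n + j) (b := -(j : ℤ))
  rw [add_neg_cancel_right] at this
  rw [map_mul, map_pow, evT_C, evT_X, T, HahnSeries.single_pow, HahnSeries.C_apply,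
    HahnSeries.single_mul_single, ← this]
  simp

theorem Ge.evT_mul {j : ℤ} {u : LaurentSeries E} (h : Ge j u) {p : E[X]} {s : ℕ}
    (hp : p.natDegree ≤ s) : Ge (j - s) (evT E p * u) := fun n hn => by
  rw [evT_mul_coeff]
  exact Finset.sum_eq_zero fun i hi => by
    rw [h _ (by have := Finset.mem_range.1 hi; omega), mul_zero]

theorem evT_single (p : E[X]) (m n : ℤ) : (evT E p * HahnSeries.single m 1).coeff n =
    if n ≤ m then p.coeff (m - n).toNat else 0 := by
  rw [evT_mul_coeff]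
  split_ifs with h
  · rw [Finset.sum_eq_single (m - n).toNat, show n + (m - n).toNat = m by omega,
      HahnSeries.coeff_single_same, mul_one]
    · intro j _ hj
      rw [HahnSeries.coeff_single_of_ne (by omega), mul_zero]
    · intro hj
      rw [coeff_eq_zero_of_natDegree_lt (by have := Finset.mem_range.not.1 hj; omega), zero_mul]
  · exact Finset.sum_eq_zero fun j _ => by
      rw [HahnSeries.coeff_single_of_ne (by omega), mul_zero]

theorem evT_coeff (p : E[X]) (n : ℤ) :
    (evT E p).coeff n = if n ≤ 0 then p.coeff (-n).toNat else 0 := by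
  have := evT_single p 0 n
  rwa [HahnSeries.single_zero_one, mul_one, zero_sub] at this

theorem evT_ne {p : E[X]} (hp : p ≠ 0) : evT E p ≠ 0 := fun h => hp (by
  ext j
  have := evT_coeff p (-j)
  rw [h] at this
  simpa using this.symm)

theorem exists_poly (y : LaurentSeries E) : ∃ p, Ge 1 (y - evT E p) := by
  refine ⟨∑ j ∈ Finset.range ((-y.order).toNat + 1), monomial j (y.coeff (-j)), fun n hn => ?_⟩
  rw [HahnSeries.coeff_sub, evT_coeff, if_pos (by omega), finsetSum_coeff, sub_eq_zero]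
  simp only [coeff_monomial, Finset.sum_ite_eq', Finset.mem_range]
  split_ifs with h
  · congr 1; omega
  · exact HahnSeries.coeff_eq_zero_of_lt_order (by omega)

/-- The substitution `T ↦ T ^ q`. -/
noncomputable def tauS (E : Type) [Field E] {q : ℕ} (hq : q ≠ 0) :
    LaurentSeries E →+* LaurentSeries E :=
  HahnSeries.embDomainRingHom (AddMonoidHom.mulLeft (q : ℤ))
    (fun _ _ h => mul_left_cancel₀ (Nat.cast_ne_zero.2 hq) h)
    fun _ _ => mul_le_mul_iff_right₀ (Nat.cast_pos.2 (Nat.pos_of_ne_zero hq))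

theorem tauS_single {q : ℕ} (hq : q ≠ 0) (n : ℤ) (a : E) :
    tauS E hq (HahnSeries.single n a) = HahnSeries.single (q * n) a :=
  HahnSeries.embDomain_single

theorem tauS_coeff {q : ℕ} (hq : q ≠ 0) (u : LaurentSeries E) (n : ℤ) :
    (tauS E hq u).coeff n = if (q : ℤ) ∣ n then u.coeff (n / q) else 0 := by
  split_ifs with h
  · obtain ⟨k, rfl⟩ := h
    rw [Int.mul_ediv_cancel_left _ (Nat.cast_ne_zero.2 hq)]
    exact HahnSeries.embDomain_coeff
  · exact HahnSeries.embDomain_of_notMem_range fun ⟨k, hk⟩ => h ⟨k, hk.symm⟩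

theorem tauS_C {q : ℕ} (hq : q ≠ 0) (a : E) : tauS E hq (HahnSeries.C a) = HahnSeries.C a := by
  rw [HahnSeries.C_apply, tauS_single, mul_zero]

theorem Ge.tauS {q : ℕ} (hq : q ≠ 0) {j : ℤ} {u : LaurentSeries E} (h : Ge j u) :
    Ge (q * j) (tauS E hq u) := fun n hn => by
  rw [tauS_coeff]
  split_ifs with h1
  · exact h _ (Int.ediv_lt_of_lt_mul (Nat.cast_pos.2 (Nat.pos_of_ne_zero hq)) (by rwa [mul_comm]))
  · rfl

end Pool.Agent.K12
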