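import Pool.Agent.Lib.MP_091276_al.Top

set_option autoImplicit false

namespace Pool.Agent.K12.Seven

open Polynomial Pool.Agent.K12

/-- The `ω ^ (1 - n)` eigenspace of the Carlitz class module modulo `P` is zero for every prime `P`
when `n ≤ q ^ 2` or `n ≤ 8`, and for every `n` when `deg P ≤ 2`. -/
theorem seven (F : Type) [Field F] [Fintype F] (P : F[X]) (hm : P.Monic) (hi : Irreducible P)
    (n : ℕ) (h1 : 1 ≤ n) (h2 : n ≤ Fintype.card F ^ 2 ∨ n ≤ 8 ∨ P.natDegree ≤ 2) :
    eigCard (T F) P n = 1 :=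
  eigCard_one ((or_assoc.2 h2).elim (eigen_all hm hi h1) fun h => eigen_small hm hi h n)

end Pool.Agent.K12.Seven
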