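import Pool.Agent.Lib.MP_091276_al.Card

/-! The finite module `K_n` and the digit bookkeeping. -/

namespace Pool.Agent.K12

open Polynomial

/-- The cokernel of `Kmat`. -/
abbrev Kn (F : Type) [Field F] [Fintype F] (k n : ℕ) : Type := Cok (Kmat F k n)

variable {F : Type} [Field F] [Fintype F]

theorem dig_sum (q m k : ℕ) : ∑ i ∈ Finset.range k, q ^ i * dig q m i = m % q ^ k := by
  induction k with
  | zero => simp [Nat.mod_one]
  | succ k ih => rw [Finset.sum_range_succ, ih, Nat.mod_pow_succ, dig]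

theorem dig_le {q : ℕ} (hq : 1 < q) (m k : ℕ) : ∑ i ∈ Finset.range k, dig q m i ≤ k * (q - 1) := by
  refine (Finset.sum_le_card_nsmul _ _ (q - 1) fun i _ => ?_).trans (by simp)
  exact Nat.le_sub_one_of_lt (Nat.mod_lt _ (by omega))

theorem rk_le {q : ℕ} (hq : 1 < q) (k n : ℕ) : rk q k n ≤ k - 2 := by
  have h := dig_le hq (q ^ k - n) k
  rcases Nat.eq_zero_or_pos k with rfl | hk
  · simp [rk]
  have := Nat.mul_pos hk (show 0 < q - 1 by omega)
  have : (∑ i ∈ Finset.range k, dig q (q ^ k - n) i - 1) / (q - 1) < k :=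
    Nat.div_lt_of_lt_mul (by rw [mul_comm]; omega)
  rw [rk]
  omega

theorem rk_ok {q : ℕ} (hq : 1 < q) (k n : ℕ) : ∑ i ∈ Finset.range k, dig q (q ^ k - n) i +
    (rk q k n + 2) ≤ q * (rk q k n + 2) := by
  have h := Nat.lt_mul_div_succ (∑ i ∈ Finset.range k, dig q (q ^ k - n) i - 1)
    (show 0 < q - 1 by omega)
  have h1 := Nat.mul_le_mul_left (q - 1) (show (∑ i ∈ Finset.range k, dig q (q ^ k - n) i - 1) /
    (q - 1) + 1 ≤ rk q k n + 2 by rw [rk]; omega)
  rw [Nat.sub_one_mul q (rk q k n + 2)] at h1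
  have := Nat.le_mul_of_pos_left (rk q k n + 2) (show 0 < q by omega)
  omega

omit [Fintype F] in
theorem exists_c {q k n : ℕ} (hq : 1 < q) (h1 : 1 ≤ n) (h2 : n ≤ q ^ k) : ∃ c : ℕ → ℕ,
    (∀ i, k ≤ i → c i = q - 1) ∧ (∀ i, c i ≤ q - 1) ∧
    ∑ i ∈ Finset.range k, q ^ i * c i + n = q ^ k ∧
    ∑ i ∈ Finset.range k, c i + (rk q k n + 2) ≤ q * (rk q k n + 2) ∧
    beta q (X : F[X]) c k = beta q X (dig q (q ^ k - n)) k := by
  have h : ∀ i ∈ Finset.range k, (if i < k then dig q (q ^ k - n) i else q - 1) =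
      dig q (q ^ k - n) i := fun i hi => if_pos (Finset.mem_range.1 hi)
  refine ⟨fun i => if i < k then dig q (q ^ k - n) i else q - 1, fun i hi => if_neg hi.not_gt,
    fun i => ?_, ?_, ?_, Finset.prod_congr rfl fun i hi => congrArg _ (h i hi)⟩
  · dsimp only
    split_ifs
    · exact Nat.le_sub_one_of_lt (Nat.mod_lt _ (by omega))
    · rfl
  · rw [Finset.sum_congr rfl fun i hi => congrArg (q ^ i * ·) (h i hi), dig_sum,
      Nat.mod_eq_of_lt (by omega)]
    omega
  · rw [Finset.sum_congr rfl h]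
    exact rk_ok hq k n

theorem eigen_dig {P : F[X]} (hm : P.Monic) (hi : Irreducible P) {k n n' : ℕ}
    (hk : k ≤ P.natDegree) (h1 : 1 ≤ n') (h2 : n' ≤ Fintype.card F ^ k)
    (hmod : n - 1 ≡ n' - 1 [MOD Fintype.card F ^ P.natDegree - 1])
    (hD : ¬ P ∣ (-Mx (Fintype.card F) (rk (Fintype.card F) k n') (X ^ Fintype.card F ^ k)
      (beta (Fintype.card F) X (dig (Fintype.card F) (Fintype.card F ^ k - n')) k)).det) :
    EigenZero (T F) P n := by
  obtain ⟨c, c1, -, c3, c4, c5⟩ := exists_c (F := F) Fintype.one_lt_card h1 h2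
  exact eigen_of_det hm hi c hk c1 h1 c3 hmod c4 (c5 ▸ hD)

theorem eigen_zero {P : F[X]} (hm : P.Monic) (hi : Irreducible P) {k n n' : ℕ}
    (hk : k ≤ P.natDegree) (h1 : 1 ≤ n') (h2 : n' ≤ Fintype.card F ^ k)
    (hmod : n - 1 ≡ n' - 1 [MOD Fintype.card F ^ P.natDegree - 1])
    (hr : rk (Fintype.card F) k n' = 0) : EigenZero (T F) P n :=
  eigen_dig hm hi hk h1 h2 hmod (by
    rw [hr, Matrix.det_isEmpty]
    exact fun h => hi.not_isUnit (isUnit_of_dvd_one h))

theorem eigen_small {P : F[X]} (hm : P.Monic) (hi : Irreducible P) (hd : P.natDegree ≤ 2)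
    (n : ℕ) : EigenZero (T F) P n := by
  have h := Nat.one_lt_pow hi.natDegree_pos.ne' (Fintype.one_lt_card (α := F))
  have h1 := Nat.mod_lt (n - 1) (show 0 < Fintype.card F ^ P.natDegree - 1 by omega)
  have h2 := rk_le (Fintype.one_lt_card (α := F)) P.natDegree
    ((n - 1) % (Fintype.card F ^ P.natDegree - 1) + 1)
  exact eigen_zero (n' := (n - 1) % (Fintype.card F ^ P.natDegree - 1) + 1) hm hi le_rfl
    (Nat.le_add_left 1 _) (by omega) (Nat.mod_modEq _ _).symm (by omega)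

theorem eigen_all {P : F[X]} (hm : P.Monic) (hi : Irreducible P) {n : ℕ} (h1 : 1 ≤ n)
    (h2 : n ≤ Fintype.card F ^ 2 ∨ n ≤ 8) : EigenZero (T F) P n := by
  have hq : 1 < Fintype.card F := Fintype.one_lt_card
  rcases le_or_gt P.natDegree 2 with hd | hd
  · exact eigen_small hm hi hd n
  by_cases h : n ≤ Fintype.card F ^ 2
  · exact eigen_zero hm hi hd.le h1 h rfl (by have := rk_le hq 2 n; omega)
  have h4 := h2.resolve_left h
  have h3 : Fintype.card F = 2 := by
    by_contra h3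
    exact h (h4.trans (le_trans (by norm_num)
      (Nat.pow_le_pow_left (show 3 ≤ Fintype.card F by omega) 2)))
  refine eigen_zero hm hi (k := 3) hd h1 (by rw [h3]; exact h4) rfl ?_
  rw [h3] at h ⊢
  interval_cases n <;> decide

theorem card_Kn {P : F[X]} (hm : P.Monic) (hi : Irreducible P) {k n : ℕ}
    (hk : k ≤ P.natDegree) (h1 : 2 ≤ n) (h2 : n ≤ Fintype.card F ^ k) :
    Nat.card (Eig (T F) P n) = Nat.card (QuotSMulTop P (Kn F k n)) := by
  obtain ⟨c, c1, c2, c3, c4, c5⟩ := exists_c (F := F) Fintype.one_lt_card (by omega) h2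
  rw [card_eig hm hi c hk c1 c2 h1 c3 c4, c5, ← Kmat]
  set M := Kmat F k n
  let Θ := (LinearMap.range (M.map (AdjoinRoot.mk P)).mulVecLin).mkQ.toAddMonoidHom.comp
    ((AdjoinRoot.mk P).toAddMonoidHom.compLeft _)
  have h3 : Function.Surjective Θ := (Submodule.mkQ_surjective _).comp fun y => by
    choose v hv using fun j => AdjoinRoot.mk_surjective (y j)
    exact ⟨v, funext hv⟩
  rw [← Nat.card_univ, ← h3.range_eq]
  refine card_eq Θ ((Submodule.mkQ _).toAddMonoidHom.comp (Submodule.mkQ _).toAddMonoidHom)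
    ((Submodule.mkQ_surjective _).comp (Submodule.mkQ_surjective _)) fun y =>
    (Submodule.Quotient.mk_eq_zero _).trans (Iff.trans ⟨fun ⟨v, hv⟩ => ?_, fun ⟨w, _, hw⟩ => ?_⟩
      ((Submodule.Quotient.mk_eq_zero _).trans (Submodule.mem_smul_pointwise_iff_exists _ _ _)).symm)
  · choose u hu using fun j => AdjoinRoot.mk_surjective (v j)
    choose y' hy using fun i => (show P ∣ y i - M.mulVec u i from AdjoinRoot.mk_eq_mk.1 (by
      rw [RingHom.map_mulVec, show AdjoinRoot.mk P ∘ u = v from funext hu]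
      exact (congrFun hv i).symm))
    have h4 : (Submodule.Quotient.mk y : Kn F k n) = Submodule.Quotient.mk (P • y') :=
      (Submodule.Quotient.eq _).2
        ⟨u, funext fun i => (sub_eq_iff_eq_add'.2 (sub_eq_iff_eq_add.1 (hy i))).symm⟩
    exact ⟨Submodule.Quotient.mk y', trivial, h4.symm⟩
  · obtain ⟨w, rfl⟩ := Submodule.Quotient.mk_surjective _ w
    obtain ⟨u, hu⟩ := (Submodule.Quotient.eq _).1 hw.symm
    refine ⟨AdjoinRoot.mk P ∘ u, funext fun i => ?_⟩
    have h4 := congrArg (AdjoinRoot.mk P) (congrFun hu i)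
    rw [Matrix.mulVecLin_apply, RingHom.map_mulVec] at h4
    simpa using h4

theorem exists_D {k n : ℕ} (h1 : 1 ≤ n) (h2 : n ≤ Fintype.card F ^ k) :
    ∃ D : F[X], D.Monic ∧ D.natDegree = rk (Fintype.card F) k n * Fintype.card F ^ k ∧
      (∀ y : Kn F k n, D • y = 0) ∧ ∀ P : F[X], P.Monic → Irreducible P → k ≤ P.natDegree →
        ¬ P ∣ D → EigenZero (T F) P n := by
  have h := Mx_monic (Fintype.card F) (rk (Fintype.card F) k n) (Q := Fintype.card F ^ k)
    (by rw [dig_sum]; exact Nat.mod_lt _ (by omega))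
    (bd_beta (E := F) _ (dig (Fintype.card F) (Fintype.card F ^ k - n)) k)
  refine ⟨_, h.1, h.2, fun y => ?_, fun P hm hi hk => eigen_dig hm hi hk h1 h2 rfl⟩
  obtain ⟨y, rfl⟩ := Submodule.Quotient.mk_surjective _ y
  rw [← Submodule.Quotient.mk_smul, Submodule.Quotient.mk_eq_zero, ← Matrix.one_mulVec y,
    ← Matrix.smul_mulVec, ← Matrix.mul_adjugate, ← Matrix.mulVec_mulVec, Matrix.neg_mulVec,
    ← Matrix.mulVec_neg]
  generalize -Matrix.mulVec _ y = v
  refine ⟨Fin.snoc v 0, funext fun i => ?_⟩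
  simp [Matrix.mulVec, dotProduct, Fin.sum_univ_castSucc, Kmat, Mw_castSucc]

theorem example_seven (h : Fintype.card F = 7) :
    Irreducible (X ^ 3 - C 3 : F[X]) ∧ Nat.card (Eig (T F) (X ^ 3 - C 3 : F[X]) 51) = 343 := by
  have h7 : (7 : F) = 0 := by
    have := FiniteField.cast_card_eq_zero F
    rw [h] at this
    exact_mod_cast this
  have hi : Irreducible (X ^ 3 - C 3 : F[X]) :=
    irreducible_of_degree_le_three_of_not_isRoot (by rw [natDegree_X_pow_sub_C]; decide)
      fun x hx => by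
        have h1 := FiniteField.pow_card x
        rw [IsRoot.def, eval_sub, eval_pow, eval_X, eval_C] at hx
        rw [h] at h1
        have h2 : x = 0 := by linear_combination h1 - (x ^ 4 + 3 * x) * hx - x * h7
        rw [h2] at hx
        exact one_ne_zero (α := F) (by linear_combination 2 * hx + h7)
  have := Fact.mk hi
  have hm : (X ^ 3 - C 3 : F[X]).Monic := monic_X_pow_sub_C _ (by norm_num)
  have := (AdjoinRoot.powerBasis' hm).finite
  refine ⟨hi, ?_⟩
  rw [card_eig hm hi (fun i => if i = 0 ∨ i = 2 then 5 else 6) (k := 3) (r := 1)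
    (by rw [natDegree_X_pow_sub_C]) (fun i hi => by rw [if_neg (by omega), h])
    (fun i => by rw [h]; split_ifs <;> norm_num) (by norm_num) (by rw [h]; decide)
    (by rw [h]; decide), Mw_map, beta_map, map_pow, AdjoinRoot.mk_X, h,
    ex_zero (by rw [← map_ofNat (AdjoinRoot.of _) 7, h7, map_zero]) (by
      have := AdjoinRoot.mk_self (f := (X ^ 3 - C 3 : F[X]))
      rwa [map_sub, map_pow, AdjoinRoot.mk_X, AdjoinRoot.mk_C, map_ofNat (AdjoinRoot.of _),
        sub_eq_zero] at this) rfl rfl rfl,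
    Nat.card_congr (Submodule.quotEquivOfEqBot _ (by simp)).toEquiv, Nat.card_fun,
    Module.natCard_eq_pow_finrank (K := F), (AdjoinRoot.powerBasis' hm).finrank]
  simp [h]

end Pool.Agent.K12
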